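import Pool.Agent.helper14.XG.SpecA

/-!
# MP_51d945: row FIN (the negation of Q1)
-/

set_option autoImplicit false

namespace Pool.Agent.XG

open Finset SimpleGraph
open Pool.Agent.XT

theorem FIN_ex (hCUG : CUG_stmt) (C : ℝ) (hC : 0 < C)
    (hU : ∀ (n : ℕ) (B : FS n), AdmG B → (B.card : ℝ) ≤ C * (n : ℝ) ^ (33 / 25 : ℝ)) (n : ℕ) :
    (extremalNumber n (GL.Gr RM) : ℝ) ≤ 2 * C * (n : ℝ) ^ (33 / 25 : ℝ) := by
  classical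
  have hb : (0 : ℝ) ≤ 2 * C * (n : ℝ) ^ (33 / 25 : ℝ) := by positivity
  have h1 := extremalNumber_le_iff_of_nonneg (V := Fin n) (GL.Gr RM) hb
  rw [Fintype.card_fin] at h1
  rw [h1]
  intro G _ hG
  obtain ⟨B, hB, hc⟩ := hCUG n G hG
  have h2 := hU n B hB
  have h3 : G.edgeSet.ncard = G.edgeFinset.card := by
    rw [← coe_edgeFinset, Set.ncard_coe_finset]
  rw [h3] at hc
  have h4 : (G.edgeFinset.card : ℝ) ≤ 2 * (B.card : ℝ) := by exact_mod_cast hc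
  linarith

theorem FIN_pow (K : ℝ) (hK : 0 ≤ K) (N : ℕ) : ∃ n : ℕ, N ≤ n ∧ 64 ≤ n ∧
    K * (n : ℝ) ^ (33 / 25 : ℝ) < (1 / 16 : ℝ) * (n : ℝ) ^ (4 / 3 : ℝ) := by
  refine ⟨⌈(16 * K + 1) ^ 75⌉₊ + N + 64, by omega, by omega, ?_⟩
  set n : ℕ := ⌈(16 * K + 1) ^ 75⌉₊ + N + 64 with hn
  have hn0 : (0 : ℝ) < n := by
    rw [hn]
    push_cast
    positivity
  have h1 : (16 * K + 1) ^ 75 ≤ (n : ℝ) := by
    have h2 := Nat.le_ceil ((16 * K + 1) ^ 75)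
    rw [hn]
    push_cast
    have h3 : (0 : ℝ) ≤ N := Nat.cast_nonneg _
    linarith
  have h2 : 16 * K + 1 ≤ (n : ℝ) ^ (1 / 75 : ℝ) := by
    have h3 : ((16 * K + 1) ^ 75) ^ (1 / 75 : ℝ) ≤ (n : ℝ) ^ (1 / 75 : ℝ) :=
      Real.rpow_le_rpow (by positivity) h1 (by norm_num)
    have h4 : ((16 * K + 1) ^ 75) ^ (1 / 75 : ℝ) = 16 * K + 1 := by
      rw [← Real.rpow_natCast, ← Real.rpow_mul (by positivity)]
      norm_num
    rw [h4] at h3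
    exact h3
  have h3 : (n : ℝ) ^ (4 / 3 : ℝ) = (n : ℝ) ^ (1 / 75 : ℝ) * (n : ℝ) ^ (33 / 25 : ℝ) := by
    rw [← Real.rpow_add hn0]
    norm_num
  have h4 : (0 : ℝ) < (n : ℝ) ^ (33 / 25 : ℝ) := Real.rpow_pos_of_pos hn0 _
  rw [h3]
  have h5 := mul_le_mul_of_nonneg_right h2 h4.le
  linarith

theorem FIN (hHOS : HOS_stmt) (hUPG : UPG_stmt) (hCUG : CUG_stmt) : FIN_stmt := by
  intro hQ
  obtain ⟨C, hC, hU⟩ := hUPG
  obtain ⟨C', N, hN⟩ := hQ XM YM RM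
  obtain ⟨n, hn1, hn2, hn3⟩ := FIN_pow (|C'| * (2 * C)) (by positivity) N
  obtain ⟨B, -, hB2, hB3⟩ := hHOS n hn2
  have h1 := hN n hn1 B hB2
  have h2 := FIN_ex hCUG C hC hU n
  have h3 : C' * (extremalNumber n (GL.Gr RM) : ℝ) ≤
      |C'| * (2 * C * (n : ℝ) ^ (33 / 25 : ℝ)) :=
    mul_le_mul (le_abs_self _) h2 (Nat.cast_nonneg _) (abs_nonneg _)
  have h4 : |C'| * (2 * C * (n : ℝ) ^ (33 / 25 : ℝ)) = |C'| * (2 * C) * (n : ℝ) ^ (33 / 25 : ℝ) := by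
    ring
  linarith

end Pool.Agent.XG
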