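import Pool.Agent.helper14.XG.SpecA

/-!
# MP_51d945: row PRH (hosts of large degree)
-/

set_option autoImplicit false

namespace Pool.Agent.XG

open Finset SimpleGraph
open Pool.Agent.XT

/-- Choice of the smaller degree. -/
theorem PRH_num (C : ℝ) (hC : 1 ≤ C) (n D : ℕ) (hn : 2 ^ 75 * C ^ 3 ≤ (n : ℝ))
    (hD : C * (n : ℝ) ^ 8 ≤ (D : ℝ) ^ 25) :
    ∃ D' : ℕ, 0 < D' ∧ D' ≤ D ∧ C * (n : ℝ) ^ 8 ≤ (D' : ℝ) ^ 25 ∧ D' ^ 3 ≤ n := by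
  classical
  have hex : ∃ d : ℕ, C * (n : ℝ) ^ 8 ≤ (d : ℝ) ^ 25 := ⟨D, hD⟩
  have hn1 : (1 : ℝ) < n := by
    have h1 : (1 : ℝ) ≤ C ^ 3 := one_le_pow₀ hC
    have h2 : (2 : ℝ) ^ 75 * 1 ≤ 2 ^ 75 * C ^ 3 := by
      exact mul_le_mul_of_nonneg_left h1 (by positivity)
    have h3 : (1 : ℝ) < 2 ^ 75 * 1 := by norm_num
    linarith
  have hn8 : (1 : ℝ) < (n : ℝ) ^ 8 := one_lt_pow₀ hn1 (by norm_num)
  have hCn : 1 < C * (n : ℝ) ^ 8 := by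
    calc (1 : ℝ) < (n : ℝ) ^ 8 := hn8
      _ = 1 * (n : ℝ) ^ 8 := (one_mul _).symm
      _ ≤ C * (n : ℝ) ^ 8 := mul_le_mul_of_nonneg_right hC (by positivity)
  set d := Nat.find hex with hd
  have hspec : C * (n : ℝ) ^ 8 ≤ (d : ℝ) ^ 25 := Nat.find_spec hex
  have hmin : ∀ m < d, (m : ℝ) ^ 25 < C * (n : ℝ) ^ 8 := fun m hm =>
    not_le.mp (Nat.find_min hex hm)
  have hd2 : 2 ≤ d := by
    by_contra hcon
    have h1 : d ≤ 1 := by omega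
    have h2 : (d : ℝ) ≤ 1 := by exact_mod_cast h1
    have h3 : (d : ℝ) ^ 25 ≤ 1 := pow_le_one₀ (Nat.cast_nonneg _) h2
    linarith
  refine ⟨d, by omega, Nat.find_min' hex hD, hspec, ?_⟩
  obtain ⟨e, he⟩ : ∃ e : ℕ, d = e + 1 := ⟨d - 1, by omega⟩
  have he1 : 1 ≤ e := by omega
  have h1 := hmin e (by omega)
  have h2 : (d : ℝ) ≤ 2 * e := by
    have : d ≤ 2 * e := by omega
    exact_mod_cast this
  have h3 : (d : ℝ) ^ 25 ≤ 2 ^ 25 * (C * (n : ℝ) ^ 8) := by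
    calc (d : ℝ) ^ 25 ≤ (2 * (e : ℝ)) ^ 25 := pow_le_pow_left₀ (Nat.cast_nonneg _) h2 25
      _ = 2 ^ 25 * (e : ℝ) ^ 25 := mul_pow _ _ _
      _ ≤ 2 ^ 25 * (C * (n : ℝ) ^ 8) := mul_le_mul_of_nonneg_left h1.le (by positivity)
  have h4 : ((d : ℝ) ^ 3) ^ 25 ≤ (n : ℝ) ^ 25 := by
    calc ((d : ℝ) ^ 3) ^ 25 = ((d : ℝ) ^ 25) ^ 3 := by ring
      _ ≤ (2 ^ 25 * (C * (n : ℝ) ^ 8)) ^ 3 := pow_le_pow_left₀ (by positivity) h3 3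
      _ = (2 ^ 75 * C ^ 3) * (n : ℝ) ^ 24 := by ring
      _ ≤ (n : ℝ) * (n : ℝ) ^ 24 := mul_le_mul_of_nonneg_right hn (by positivity)
      _ = (n : ℝ) ^ 25 := by ring
  have h5 : (d : ℝ) ^ 3 ≤ n :=
    le_of_pow_le_pow_left₀ (by norm_num : (25 : ℕ) ≠ 0) (by positivity) h4
  exact_mod_cast h5

theorem PRH (hPRG : PRG_stmt) (hSPR : SPR_stmt) (hCLH : CLH_stmt) (hDUA : DUA_stmt)
    (hMMO : MMO_stmt) : PRH_stmt := by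
  intro κ hκ
  obtain ⟨C0, hC0⟩ := hPRG (κ / 12) (by positivity)
  set C : ℝ := max C0 1 with hCd
  have hC1 : 1 ≤ C := le_max_right _ _
  refine ⟨C, ⌈2 ^ 75 * C ^ 3⌉₊, ?_⟩
  intro n D B hN hH hD
  have hn : 2 ^ 75 * C ^ 3 ≤ (n : ℝ) := le_trans (Nat.le_ceil _) (Nat.cast_le.mpr hN)
  obtain ⟨D', hD0, hDD, hD25, hD3⟩ := PRH_num C hC1 n D hn hD
  obtain ⟨B1, hB1, hp, hl, hc⟩ := hSPR n D D' B hD0 hDD hH.pu hH.lu
  have hDr : (0 : ℝ) < D := by exact_mod_cast hH.d0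
  have h1 : 4 * (κ / 12) * n * D' ≤ (B1.card : ℝ) := by
    have h2 : (D' : ℝ) * B.card ≤ 3 * D * B1.card := by exact_mod_cast hc
    have h3 : (D' : ℝ) * (κ * n * D) ≤ (D' : ℝ) * B.card :=
      mul_le_mul_of_nonneg_left hH.big (Nat.cast_nonneg _)
    have h4 : (D : ℝ) * (4 * (κ / 12) * n * D') ≤ (D : ℝ) * (B1.card : ℝ) := by
      have h5 : (D : ℝ) * (4 * (κ / 12) * n * D') = ((D' : ℝ) * (κ * n * D)) / 3 := by ring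
      rw [h5]
      linarith
    exact le_of_mul_le_mul_left h4 hDr
  obtain ⟨B2, hB2, hH2⟩ := hCLH (κ / 12) n D' B1 (by positivity) hH.n0 hD0 hp hl h1
  have hC25 : C0 * (n : ℝ) ^ 8 ≤ (D' : ℝ) ^ 25 :=
    le_trans (mul_le_mul_of_nonneg_right (le_max_left _ _) (by positivity)) hD25
  have hsub : B2 ⊆ B := fun e he => hB1 (hB2 he)
  have hmono : ∀ B3 B4 : FS n, B3 ⊆ B4 → HasM B3 → HasM B4 := by
    intro B3 B4 h34 h3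
    exact hMMO n n B3 B4 (Function.Embedding.refl _) (Function.Embedding.refl _)
      (fun p l hpl => h34 hpl) h3
  rcases hC0 n D' B2 hH2 hC25 hD3 with h | h
  · exact Or.inl (hmono _ _ hsub h)
  · exact Or.inr (hmono _ _ ((hDUA n B).2.2.2.2.2.2.1 B2 hsub).1 h)

end Pool.Agent.XG
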