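import Pool.Agent.helper14.XG.Main
import Pool.Agent.helper14.XG.FIN
import Pool.Agent.helper14.XG.PRH
import Pool.Agent.helper25.XG.ADG
import Pool.Agent.helper25.XG.CLH
import Pool.Agent.helper25.XG.ONE
import Pool.Agent.helper25.XG.STG
import Pool.Agent.helper25.XG.SWH
import Pool.Agent.helper56.XG.CUG
import Pool.Agent.helper56.XG.DNG
import Pool.Agent.helper56.XG.HVG
import Pool.Agent.helper56.XG.PRG
import Pool.Agent.helper80.XG.SPR
import Pool.Agent.helper80.XG.SYX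
import Pool.Agent.helper80.XG.UPG
import Pool.Agent.helper97.XG.BLG
import Pool.Agent.helper8.XT.CLN
import Pool.Agent.helper27.XT.FNM
import Pool.Agent.helper27.XT.HOS
import Pool.Agent.helper27.XT.MEQ
import Pool.Agent.helper27.XT.PRM
import Pool.Agent.helper27.XT.WAA
import Pool.Agent.helper27.XT.WCL
import Pool.Agent.helper27.XT.WGE
import Pool.Agent.helper27.XT.WNM
import Pool.Agent.helper56.XT.WGR
import Pool.Agent.helper72.XT.DGX
import Pool.Agent.helper72.XT.DUA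
import Pool.Agent.helper72.XT.GFT
import Pool.Agent.helper72.XT.MMO
import Pool.Agent.helper82.XT.PCK

/-!
# MP_51d945: final assembly. `Q1` is false
-/

set_option autoImplicit false

namespace Pool.Agent.XG

open Finset SimpleGraph
open Pool.Agent.XT

theorem m_DUA : DUA_stmt := XT.DUA
theorem m_MMO : MMO_stmt := XT.MMO
theorem m_CLN : CLN_stmt := XT.CLN
theorem m_MEQ : MEQ_stmt := XT.MEQ
theorem m_FNM : FNM_stmt := XT.FNM m_SEL m_MEQ
theorem m_WAA : WAA_stmt := XT.WAA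
theorem m_WNM : WNM_stmt := XT.WNM m_MEQ m_WAA XT.WCL XT.WGR
theorem m_WGE : WGE_stmt := XT.WGE m_WAA
theorem m_HOS : HOS_stmt := XT.HOS m_WNM m_WGE XT.PRM
theorem m_SWH : SWH_stmt := SWH m_DUA
theorem m_CLH : CLH_stmt := CLH m_CLN
theorem m_DNG : DNG_stmt := DNG XT.PCK m_FNM m_GAD
theorem m_SYX : SYX_stmt := SYX m_GAD
theorem m_ONE : ONE_stmt := ONE m_LMG m_DNG m_SYX m_CLH m_MMO
theorem m_PRG : PRG_stmt := PRG m_ONE m_CLH m_SWH XT.DGX XT.GFT m_FNM m_DUA m_MMO
theorem m_PRH : PRH_stmt := PRH m_PRG SPR m_CLH m_DUA m_MMO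
theorem m_ADG : ADG_stmt := ADG m_MMO m_DUA
theorem m_BLG : BLG_stmt := BLG m_ADG
theorem m_HVG : HVG_stmt := HVG m_BLG STG
theorem m_UPG : UPG_stmt := UPG m_PRH m_HVG m_CLN m_ADG m_DUA
theorem m_CUG : CUG_stmt := CUG
theorem m_FIN : FIN_stmt := FIN m_HOS m_UPG m_CUG

end Pool.Agent.XG
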