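import Pool.Agent.helper3.XT.Spec

/-!
# Project xg (MP_51d945_co): Q1 is false. Hosts without girth condition: definitions

Same graph `M` (`RM`) and same gadgets as in project xt (helper3). Mechanism of helper80, upper bound for girth 8 of helper3, general hosts helper14.
-/

set_option autoImplicit false

namespace Pool.Agent.XG

open Finset
open Pool.Agent.XT

/-- Hosts: all degrees in `[κ D, D]` (or `0`) and at least `κ n D` flags. No girth condition. -/
structure Hst (κ : ℝ) (D : ℕ) {n : ℕ} (B : FS n) : Prop where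
  n0 : 0 < n
  d0 : 0 < D
  pu : ∀ p, (dP B p).card ≤ D
  lu : ∀ l, (dL B l).card ≤ D
  pl : ∀ p l, (p, l) ∈ B → κ * D ≤ ((dP B p).card : ℝ)
  ll : ∀ p l, (p, l) ∈ B → κ * D ≤ ((dL B l).card : ℝ)
  big : κ * n * D ≤ (B.card : ℝ)

/-- `501` pairwise disjoint gadgets between `x` and `y`. -/
def Rb {n : ℕ} (B : FS n) (x y : Fin n) : Prop :=
  ∃ W : Finset (Finset (VV n)), 501 ≤ W.card ∧ (∀ S ∈ W, Gad B x y S) ∧
    (W : Set (Finset (VV n))).PairwiseDisjoint id

open Classical in
/-- A system: `Nr` is a symmetric relation (the pairs which are not robust), `F x y` is a set of at most `6000` vertices which meets every gadget between `x` and `y` if `Nr x y`,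
and every flag `(x, l)` has at most `500` points `y` on `l` for which `Nr x y` fails. -/
structure Sy {n : ℕ} (B : FS n) (Nr : Fin n → Fin n → Prop)
    (F : Fin n → Fin n → Finset (VV n)) : Prop where
  sy : ∀ x y, Nr x y → Nr y x
  fs : ∀ x y, F x y = F y x
  fc : ∀ x y, (F x y).card ≤ 6000
  hit : ∀ x y S, Nr x y → Gad B x y S → ¬ Disjoint S (F x y)
  few : ∀ x l, (x, l) ∈ B →
    (Finset.univ.filter (fun y => (y, l) ∈ B ∧ y ≠ x ∧ ¬ Nr x y)).card ≤ 500

/-- LMG: the main lemma (block B). Many robust pairs in a host with few robust flags. -/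
def LMG_stmt : Prop := ∀ κ : ℝ, 0 < κ → ∀ A : ℝ, 0 < A → ∃ C : ℝ, ∀ (n D : ℕ) (B : FS n)
  (Nr : Fin n → Fin n → Prop) (F : Fin n → Fin n → Finset (VV n)), Hst κ D B → Sy B Nr F →
  C * (n : ℝ) ^ 8 ≤ (D : ℝ) ^ 25 → D ^ 3 ≤ n → A * (n : ℝ) ^ 2 ≤ (D : ℝ) * ((RobS B).card : ℝ)

end Pool.Agent.XG
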