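import Pool.Agent.helper14.XG.Spec

/-!
# MP_51d945: row LOW (many gadget tuples)
-/

set_option autoImplicit false

namespace Pool.Agent.XG

open Finset Pool.Agent.XT

/-- The lines of the tuple. -/
def LOW_s {n : ℕ} (π π' ρ φ : Fin n × Fin n × Fin n) (p : P8) : Fin n :=
  (![![π.1, π'.1, ρ.1], ![π.2.2, π'.2.2, ρ.2.2], ![φ.1, φ.2.2, φ.1]] : Fin 3 → Fin 3 → Fin n)
    p.1.1 p.1.2

open Classical in
/-- Membership in `TG` from the fourteen typical 4-paths. -/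
theorem LOW_mem (hBAS : BAS_stmt) {n : ℕ} (B : FS n) (Nr : Fin n → Fin n → Prop)
    (F : Fin n → Fin n → Finset (VV n)) (hS : Sy B Nr F) (t1 t2 : ℝ) (a b : Fin n)
    (π π' ρ φ : Fin n × Fin n × Fin n)
    (c01 : Cp B Nr F t1 a b π π') (c02 : Cp B Nr F t1 a b π ρ) (c12 : Cp B Nr F t1 a b π' ρ)
    (f1 : Ty B Nr F t1 π.2.1 φ.1 φ.2.1 φ.2.2 π'.2.1)
    (g0 : Ty B Nr F t2 a π.1 π.2.1 π.2.2 b) (g1 : Ty B Nr F t2 a π'.1 π'.2.1 π'.2.2 b)
    (g2 : Ty B Nr F t2 a ρ.1 ρ.2.1 ρ.2.2 b)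
    (d0 : Cp B Nr F t2 π.2.1 π'.2.1 (π.1, a, π'.1) φ)
    (d1 : Cp B Nr F t2 π.2.1 π'.2.1 (π.2.2, b, π'.2.2) φ) :
    ((![π.2.1, π'.2.1, ρ.2.1] : Fin 3 → Fin n), (![a, b, φ.2.1] : Fin 3 → Fin n),
      LOW_s π π' ρ φ) ∈ TG B Nr F t1 t2 := by
  have hrev := (hBAS n B Nr F hS).2.2.2.2.2.1
  unfold TG
  rw [Finset.mem_filter]
  refine ⟨Finset.mem_univ _, ?_, ?_⟩
  · rintro ⟨⟨i, j⟩, hp⟩ ⟨⟨i', j'⟩, hp'⟩ hi hj
    have hi' : i = i' := hi
    subst hi'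
    have hj' : j ≠ j' := hj
    show Ty B Nr F t1 ((![π.2.1, π'.2.1, ρ.2.1] : Fin 3 → Fin n) j)
      ((![![π.1, π'.1, ρ.1], ![π.2.2, π'.2.2, ρ.2.2], ![φ.1, φ.2.2, φ.1]] :
        Fin 3 → Fin 3 → Fin n) i j)
      ((![a, b, φ.2.1] : Fin 3 → Fin n) i)
      ((![![π.1, π'.1, ρ.1], ![π.2.2, π'.2.2, ρ.2.2], ![φ.1, φ.2.2, φ.1]] :
        Fin 3 → Fin 3 → Fin n) i j')
      ((![π.2.1, π'.2.1, ρ.2.1] : Fin 3 → Fin n) j')
    clear hi hj
    fin_cases i <;> fin_cases j <;> fin_cases j' <;>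
      first
      | exact absurd rfl hj'
      | exact absurd rfl hp
      | exact absurd rfl hp'
      | exact c01.1
      | exact c01.2
      | exact c02.1
      | exact c02.2
      | exact c12.1
      | exact c12.2
      | exact f1
      | exact (hrev _ _ _ _ _ _ c01.1).1
      | exact (hrev _ _ _ _ _ _ c01.2).1
      | exact (hrev _ _ _ _ _ _ c02.1).1
      | exact (hrev _ _ _ _ _ _ c02.2).1
      | exact (hrev _ _ _ _ _ _ c12.1).1
      | exact (hrev _ _ _ _ _ _ c12.2).1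
      | exact (hrev _ _ _ _ _ _ f1).1
  · rintro ⟨⟨i, j⟩, hp⟩ ⟨⟨i', j'⟩, hp'⟩ hj hi
    have hj' : j = j' := hj
    subst hj'
    have hi' : i ≠ i' := hi
    show Ty B Nr F t2 ((![a, b, φ.2.1] : Fin 3 → Fin n) i)
      ((![![π.1, π'.1, ρ.1], ![π.2.2, π'.2.2, ρ.2.2], ![φ.1, φ.2.2, φ.1]] :
        Fin 3 → Fin 3 → Fin n) i j)
      ((![π.2.1, π'.2.1, ρ.2.1] : Fin 3 → Fin n) j)
      ((![![π.1, π'.1, ρ.1], ![π.2.2, π'.2.2, ρ.2.2], ![φ.1, φ.2.2, φ.1]] :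
        Fin 3 → Fin 3 → Fin n) i' j)
      ((![a, b, φ.2.1] : Fin 3 → Fin n) i')
    clear hi hj
    fin_cases j <;> fin_cases i <;> fin_cases i' <;>
      first
      | exact absurd rfl hi'
      | exact absurd rfl hp
      | exact absurd rfl hp'
      | exact g0
      | exact g1
      | exact g2
      | exact d0.1
      | exact d0.2
      | exact d1.1
      | exact d1.2
      | exact (hrev _ _ _ _ _ _ g0).1
      | exact (hrev _ _ _ _ _ _ g1).1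
      | exact (hrev _ _ _ _ _ _ g2).1
      | exact (hrev _ _ _ _ _ _ d0.1).1
      | exact (hrev _ _ _ _ _ _ d0.2).1
      | exact (hrev _ _ _ _ _ _ d1.1).1
      | exact (hrev _ _ _ _ _ _ d1.2).1

/-- The tuple determines everything. -/
theorem LOW_inj {n : ℕ} (a b a' b' : Fin n) (π π' ρ φ μ μ' σ τ : Fin n × Fin n × Fin n)
    (h : ((![π.2.1, π'.2.1, ρ.2.1] : Fin 3 → Fin n), (![a, b, φ.2.1] : Fin 3 → Fin n),
      LOW_s π π' ρ φ) = ((![μ.2.1, μ'.2.1, σ.2.1] : Fin 3 → Fin n),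
        (![a', b', τ.2.1] : Fin 3 → Fin n), LOW_s μ μ' σ τ)) :
    a = a' ∧ b = b' ∧ π = μ ∧ π' = μ' ∧ ρ = σ ∧ φ = τ := by
  rw [Prod.mk.injEq, Prod.mk.injEq] at h
  obtain ⟨hx, hy, hs⟩ := h
  have x0 : π.2.1 = μ.2.1 := congrFun hx 0
  have x1 : π'.2.1 = μ'.2.1 := congrFun hx 1
  have x2 : ρ.2.1 = σ.2.1 := congrFun hx 2
  have y0 : a = a' := congrFun hy 0
  have y1 : b = b' := congrFun hy 1
  have y2 : φ.2.1 = τ.2.1 := congrFun hy 2
  have s00 : π.1 = μ.1 := congrFun hs ⟨(0, 0), by decide⟩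
  have s01 : π'.1 = μ'.1 := congrFun hs ⟨(0, 1), by decide⟩
  have s02 : ρ.1 = σ.1 := congrFun hs ⟨(0, 2), by decide⟩
  have s10 : π.2.2 = μ.2.2 := congrFun hs ⟨(1, 0), by decide⟩
  have s11 : π'.2.2 = μ'.2.2 := congrFun hs ⟨(1, 1), by decide⟩
  have s12 : ρ.2.2 = σ.2.2 := congrFun hs ⟨(1, 2), by decide⟩
  have s20 : φ.1 = τ.1 := congrFun hs ⟨(2, 0), by decide⟩
  have s21 : φ.2.2 = τ.2.2 := congrFun hs ⟨(2, 1), by decide⟩
  exact ⟨y0, y1, Prod.ext s00 (Prod.ext x0 s10), Prod.ext s01 (Prod.ext x1 s11),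
    Prod.ext s02 (Prod.ext x2 s12), Prod.ext s20 (Prod.ext y2 s21)⟩

/-- Index type of 8-cycles. -/
abbrev LOW_T (n : ℕ) := (_ : Fin n × Fin n) × ((Fin n × Fin n × Fin n) × (Fin n × Fin n × Fin n))

/-- Exchange of the two descriptions of an 8-cycle. -/
def LOW_sw {n : ℕ} (ω : LOW_T n) : LOW_T n :=
  ⟨(ω.2.1.2.1, ω.2.2.2.1), ((ω.2.1.1, ω.1.1, ω.2.2.1), (ω.2.1.2.2, ω.1.2, ω.2.2.2.2))⟩

theorem LOW_sw_sw {n : ℕ} (ω : LOW_T n) : LOW_sw (LOW_sw ω) = ω := rfl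

theorem LOW_sw_inj {n : ℕ} : Function.Injective (LOW_sw : LOW_T n → LOW_T n) := by
  intro ω ω' h
  rw [← LOW_sw_sw ω, h, LOW_sw_sw]

open Classical in
/-- The `ω` over pairs with few 4-paths. -/
theorem LOW_few {n : ℕ} (P : Fin n × Fin n → Finset (Fin n × Fin n × Fin n)) (h : ℝ) (hh : 0 ≤ h) :
    ((((Finset.univ : Finset (Fin n × Fin n)).sigma (fun e => P e ×ˢ P e)).filter
      (fun ω : LOW_T n => ((P ω.1).card : ℝ) < h)).card : ℝ) ≤ (n : ℝ) ^ 2 * h ^ 2 := by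
  have h1 : ((Finset.univ : Finset (Fin n × Fin n)).sigma (fun e => P e ×ˢ P e)).filter
      (fun ω : LOW_T n => ((P ω.1).card : ℝ) < h) ⊆
      (Finset.univ : Finset (Fin n × Fin n)).sigma
        (fun e => if ((P e).card : ℝ) < h then P e ×ˢ P e else ∅) := by
    intro ω hω
    rw [Finset.mem_filter, Finset.mem_sigma] at hω
    rw [Finset.mem_sigma]
    refine ⟨Finset.mem_univ _, ?_⟩
    rw [if_pos hω.2]
    exact hω.1.2
  have h2 := Finset.card_le_card h1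
  rw [Finset.card_sigma] at h2
  have h3 : ((∑ e : Fin n × Fin n,
      (if ((P e).card : ℝ) < h then P e ×ˢ P e else ∅ : Finset _).card : ℕ) : ℝ) ≤
      ∑ e : Fin n × Fin n, h ^ 2 := by
    rw [Nat.cast_sum]
    refine Finset.sum_le_sum ?_
    intro e _
    by_cases hc : ((P e).card : ℝ) < h
    · rw [if_pos hc, Finset.card_product, Nat.cast_mul, ← sq]
      exact pow_le_pow_left₀ (Nat.cast_nonneg _) hc.le 2
    · rw [if_neg hc, Finset.card_empty, Nat.cast_zero]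
      exact sq_nonneg h
  rw [Finset.sum_const, Finset.card_univ, Fintype.card_prod, Fintype.card_fin,
    nsmul_eq_mul, Nat.cast_mul, ← sq] at h3
  exact le_trans (Nat.cast_le.mpr h2) h3

open Classical in
theorem LOW (hBAS : BAS_stmt) (hCHO : CHO_stmt) : LOW_stmt := by
  intro n B Nr F hS t0 t1 t2 h h1 h01 h12 hh
  have hb := hBAS n B Nr F hS
  have hrev := hb.2.2.2.2.2.1
  have hmono := hb.2.2.2.2.2.2.1
  have hcsym : ∀ (t : ℝ) (a b : Fin n) (p q : Fin n × Fin n × Fin n),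
      Cp B Nr F t a b p q → Cp B Nr F t a b q p := by
    intro t a b p q hc
    exact ⟨(hrev _ _ _ _ _ _ hc.1).1, (hrev _ _ _ _ _ _ hc.2).1⟩
  -- the sets
  set P0 : Fin n × Fin n → Finset (Fin n × Fin n × Fin n) := fun e => PP B Nr F t0 e.1 e.2 with hP0
  set P1 : Fin n × Fin n → Finset (Fin n × Fin n × Fin n) := fun e => PP B Nr F t1 e.1 e.2 with hP1
  set W : Finset (LOW_T n) := (Finset.univ : Finset (Fin n × Fin n)).sigma
    (fun e => P0 e ×ˢ P0 e) with hW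
  set V : Finset (LOW_T n) := (Finset.univ : Finset (Fin n × Fin n)).sigma
    (fun e => P1 e ×ˢ P1 e) with hV
  set W0 : Finset (LOW_T n) := (Finset.univ : Finset (Fin n × Fin n)).sigma
    (fun e => (P0 e ×ˢ P0 e).filter (fun q => ¬ Cp B Nr F t1 e.1 e.2 q.1 q.2)) with hW0
  set W1 : Finset (LOW_T n) := (Finset.univ : Finset (Fin n × Fin n)).sigma
    (fun e => (P0 e ×ˢ P0 e).filter (fun q => 2 * ((P0 e).filter
      (fun r => Cp B Nr F t1 e.1 e.2 q.1 r ∧ Cp B Nr F t1 e.1 e.2 q.2 r)).card < (P0 e).card))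
    with hW1
  set V2 : Finset (LOW_T n) := (Finset.univ : Finset (Fin n × Fin n)).sigma
    (fun e => (P1 e ×ˢ P1 e).filter (fun q => 2 * ((P1 e).filter
      (fun r => Cp B Nr F t2 e.1 e.2 q.1 r ∧ Cp B Nr F t2 e.1 e.2 q.2 r)).card < (P1 e).card))
    with hV2
  set W3 : Finset (LOW_T n) := W.filter (fun ω => ((P0 ω.1).card : ℝ) < h) with hW3
  set V4 : Finset (LOW_T n) := V.filter (fun ω => ((P1 ω.1).card : ℝ) < h) with hV4
  set W2 : Finset (LOW_T n) := Finset.univ.filter (fun ω => LOW_sw ω ∈ V2) with hW2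
  set W4 : Finset (LOW_T n) := Finset.univ.filter (fun ω => LOW_sw ω ∈ V4) with hW4
  -- cardinalities
  have cW : W.card = ∑ e : Fin n × Fin n, (PP B Nr F t0 e.1 e.2).card ^ 2 := by
    rw [hW, Finset.card_sigma]
    refine Finset.sum_congr rfl ?_
    intro e _
    rw [Finset.card_product, sq]
  have cW0 : W0.card = IC B Nr F t0 t1 := by
    rw [hW0, Finset.card_sigma]
    rfl
  have cW1 : W1.card ≤ 8 * IC B Nr F t0 t1 := by
    rw [hW1, Finset.card_sigma]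
    unfold IC
    rw [Finset.mul_sum]
    refine Finset.sum_le_sum ?_
    intro e _
    exact hCHO _ (P0 e) (Cp B Nr F t1 e.1 e.2) (fun p q => hcsym t1 e.1 e.2 p q)
  have cV2 : V2.card ≤ 8 * IC B Nr F t1 t2 := by
    rw [hV2, Finset.card_sigma]
    unfold IC
    rw [Finset.mul_sum]
    refine Finset.sum_le_sum ?_
    intro e _
    exact hCHO _ (P1 e) (Cp B Nr F t2 e.1 e.2) (fun p q => hcsym t2 e.1 e.2 p q)
  have cW2 : W2.card ≤ V2.card :=
    Finset.card_le_card_of_injOn LOW_sw (fun ω hω => (Finset.mem_filter.mp hω).2)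
      (LOW_sw_inj.injOn)
  have cW4 : W4.card ≤ V4.card :=
    Finset.card_le_card_of_injOn LOW_sw (fun ω hω => (Finset.mem_filter.mp hω).2)
      (LOW_sw_inj.injOn)
  have cW3 : (W3.card : ℝ) ≤ (n : ℝ) ^ 2 * h ^ 2 := LOW_few P0 h hh
  have cV4 : (V4.card : ℝ) ≤ (n : ℝ) ^ 2 * h ^ 2 := LOW_few P1 h hh
  set G : Finset (LOW_T n) := W \ (W0 ∪ (W1 ∪ (W2 ∪ (W3 ∪ W4)))) with hG
  have cG : (W.card : ℝ) - 9 * (IC B Nr F t0 t1 : ℝ) - 8 * (IC B Nr F t1 t2 : ℝ) -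
      2 * (n : ℝ) ^ 2 * h ^ 2 ≤ (G.card : ℝ) := by
    have e1 : W.card ≤ G.card + (W0 ∪ (W1 ∪ (W2 ∪ (W3 ∪ W4)))).card := by
      have h5 := Finset.card_le_card (Finset.subset_union_left :
        W ⊆ W ∪ (W0 ∪ (W1 ∪ (W2 ∪ (W3 ∪ W4)))))
      rw [← Finset.sdiff_union_self_eq_union] at h5
      exact le_trans h5 (Finset.card_union_le _ _)
    have e2 := Finset.card_union_le W0 (W1 ∪ (W2 ∪ (W3 ∪ W4)))
    have e3 := Finset.card_union_le W1 (W2 ∪ (W3 ∪ W4))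
    have e4 := Finset.card_union_le W2 (W3 ∪ W4)
    have e5 := Finset.card_union_le W3 W4
    have e6 : W.card ≤ G.card + (IC B Nr F t0 t1 + (8 * IC B Nr F t0 t1 +
        (8 * IC B Nr F t1 t2 + (W3.card + V4.card)))) := by omega
    have e7 : (W.card : ℝ) ≤ G.card + (IC B Nr F t0 t1 + (8 * IC B Nr F t0 t1 +
        (8 * IC B Nr F t1 t2 + (W3.card + V4.card)))) := by exact_mod_cast e6
    linarith
  -- the two choices
  set R : LOW_T n → Finset (Fin n × Fin n × Fin n) := fun ω => (P0 ω.1).filter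
    (fun r => Cp B Nr F t1 ω.1.1 ω.1.2 ω.2.1 r ∧ Cp B Nr F t1 ω.1.1 ω.1.2 ω.2.2 r) with hR
  set S : LOW_T n → Finset (Fin n × Fin n × Fin n) := fun ω => (P1 (LOW_sw ω).1).filter
    (fun r => Cp B Nr F t2 (LOW_sw ω).1.1 (LOW_sw ω).1.2 (LOW_sw ω).2.1 r ∧
      Cp B Nr F t2 (LOW_sw ω).1.1 (LOW_sw ω).1.2 (LOW_sw ω).2.2 r) with hSd
  have hGp : ∀ ω ∈ G, ω.2.1 ∈ P0 ω.1 ∧ ω.2.2 ∈ P0 ω.1 ∧
      Cp B Nr F t1 ω.1.1 ω.1.2 ω.2.1 ω.2.2 ∧ h / 2 ≤ ((R ω).card : ℝ) ∧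
      h / 2 ≤ ((S ω).card : ℝ) := by
    intro ω hω
    rw [hG, Finset.mem_sdiff] at hω
    obtain ⟨hωW, hωn⟩ := hω
    have hωW' := hωW
    rw [hW, Finset.mem_sigma, Finset.mem_product] at hωW'
    obtain ⟨-, p1, p2⟩ := hωW'
    have n0 : ω ∉ W0 := fun hc => hωn (Finset.mem_union_left _ hc)
    have n1 : ω ∉ W1 := fun hc => hωn (Finset.mem_union_right _ (Finset.mem_union_left _ hc))
    have n2 : ω ∉ W2 := fun hc => hωn (Finset.mem_union_right _ (Finset.mem_union_right _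
      (Finset.mem_union_left _ hc)))
    have n3 : ω ∉ W3 := fun hc => hωn (Finset.mem_union_right _ (Finset.mem_union_right _
      (Finset.mem_union_right _ (Finset.mem_union_left _ hc))))
    have n4 : ω ∉ W4 := fun hc => hωn (Finset.mem_union_right _ (Finset.mem_union_right _
      (Finset.mem_union_right _ (Finset.mem_union_right _ hc))))
    have hc : Cp B Nr F t1 ω.1.1 ω.1.2 ω.2.1 ω.2.2 := by
      by_contra hcon
      refine n0 ?_
      rw [hW0, Finset.mem_sigma, Finset.mem_filter, Finset.mem_product]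
      exact ⟨Finset.mem_univ _, ⟨p1, p2⟩, hcon⟩
    have hVm : LOW_sw ω ∈ V := by
      rw [hV, Finset.mem_sigma, Finset.mem_product]
      refine ⟨Finset.mem_univ _, ?_, ?_⟩
      · show (ω.2.1.1, ω.1.1, ω.2.2.1) ∈ PP B Nr F t1 ω.2.1.2.1 ω.2.2.2.1
        unfold PP
        rw [Finset.mem_filter]
        exact ⟨Finset.mem_univ _, hc.1⟩
      · show (ω.2.1.2.2, ω.1.2, ω.2.2.2.2) ∈ PP B Nr F t1 ω.2.1.2.1 ω.2.2.2.1
        unfold PP
        rw [Finset.mem_filter]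
        exact ⟨Finset.mem_univ _, hc.2⟩
    refine ⟨p1, p2, hc, ?_, ?_⟩
    · have k1 : (P0 ω.1).card ≤ 2 * (R ω).card := by
        by_contra hcon
        refine n1 ?_
        rw [hW1, Finset.mem_sigma, Finset.mem_filter, Finset.mem_product]
        exact ⟨Finset.mem_univ _, ⟨p1, p2⟩, not_le.mp hcon⟩
      have k2 : h ≤ ((P0 ω.1).card : ℝ) := by
        by_contra hcon
        refine n3 ?_
        rw [hW3, Finset.mem_filter]
        exact ⟨hωW, not_le.mp hcon⟩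
      have k3 : ((P0 ω.1).card : ℝ) ≤ 2 * (R ω).card := by exact_mod_cast k1
      linarith
    · have k1 : (P1 (LOW_sw ω).1).card ≤ 2 * (S ω).card := by
        by_contra hcon
        refine n2 ?_
        rw [hW2, Finset.mem_filter]
        refine ⟨Finset.mem_univ _, ?_⟩
        rw [hV2, Finset.mem_sigma, Finset.mem_filter]
        refine ⟨Finset.mem_univ _, ?_, not_le.mp hcon⟩
        rw [hV, Finset.mem_sigma] at hVm
        exact hVm.2
      have k2 : h ≤ ((P1 (LOW_sw ω).1).card : ℝ) := by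
        by_contra hcon
        refine n4 ?_
        rw [hW4, Finset.mem_filter]
        refine ⟨Finset.mem_univ _, ?_⟩
        rw [hV4, Finset.mem_filter]
        exact ⟨hVm, not_le.mp hcon⟩
      have k3 : ((P1 (LOW_sw ω).1).card : ℝ) ≤ 2 * (S ω).card := by exact_mod_cast k1
      linarith
  -- the injection
  have hinj : (G.sigma (fun ω => R ω ×ˢ S ω)).card ≤ (TG B Nr F t1 t2).card := by
    refine Finset.card_le_card_of_injOn
      (fun z : (_ : LOW_T n) × ((Fin n × Fin n × Fin n) × (Fin n × Fin n × Fin n)) =>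
        ((![z.1.2.1.2.1, z.1.2.2.2.1, z.2.1.2.1] : Fin 3 → Fin n),
          (![z.1.1.1, z.1.1.2, z.2.2.2.1] : Fin 3 → Fin n),
          LOW_s z.1.2.1 z.1.2.2 z.2.1 z.2.2)) ?_ ?_
    · intro z hz
      rw [Finset.mem_coe, Finset.mem_sigma, Finset.mem_product] at hz
      obtain ⟨hzG, hzR, hzS⟩ := hz
      obtain ⟨p1, p2, hc, -, -⟩ := hGp z.1 hzG
      rw [hR, Finset.mem_filter] at hzR
      rw [hSd, Finset.mem_filter] at hzS
      have q1 : Ty B Nr F t0 z.1.1.1 z.1.2.1.1 z.1.2.1.2.1 z.1.2.1.2.2 z.1.1.2 :=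
        (Finset.mem_filter.mp p1).2
      have q2 : Ty B Nr F t0 z.1.1.1 z.1.2.2.1 z.1.2.2.2.1 z.1.2.2.2.2 z.1.1.2 :=
        (Finset.mem_filter.mp p2).2
      have q3 : Ty B Nr F t0 z.1.1.1 z.2.1.1 z.2.1.2.1 z.2.1.2.2 z.1.1.2 :=
        (Finset.mem_filter.mp hzR.1).2
      have q4 : Ty B Nr F t1 z.1.2.1.2.1 z.2.2.1 z.2.2.2.1 z.2.2.2.2 z.1.2.2.2.1 :=
        (Finset.mem_filter.mp hzS.1).2
      exact LOW_mem hBAS B Nr F hS t1 t2 z.1.1.1 z.1.1.2 z.1.2.1 z.1.2.2 z.2.1 z.2.2 hc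
        hzR.2.1 hzR.2.2 q4 (hmono _ _ _ _ _ _ _ (le_trans h01 h12) q1)
        (hmono _ _ _ _ _ _ _ (le_trans h01 h12) q2) (hmono _ _ _ _ _ _ _ (le_trans h01 h12) q3)
        hzS.2.1 hzS.2.2
    · intro z _ z' _ hzz
      obtain ⟨r1, r2, r3, r4, r5, r6⟩ := LOW_inj _ _ _ _ _ _ _ _ _ _ _ _ hzz
      obtain ⟨⟨⟨a, b⟩, ⟨π, π'⟩⟩, ⟨ρ, φ⟩⟩ := z
      obtain ⟨⟨⟨a', b'⟩, ⟨μ, μ'⟩⟩, ⟨σ, τ⟩⟩ := z'
      simp only at r1 r2 r3 r4 r5 r6
      subst r1 r2 r3 r4 r5 r6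
      rfl
  rw [Finset.card_sigma] at hinj
  have hsum : (G.card : ℝ) * (h / 2) ^ 2 ≤ ((∑ ω ∈ G, (R ω ×ˢ S ω).card : ℕ) : ℝ) := by
    rw [Nat.cast_sum]
    have : ∑ ω ∈ G, (h / 2) ^ 2 ≤ ∑ ω ∈ G, ((R ω ×ˢ S ω).card : ℝ) := by
      refine Finset.sum_le_sum ?_
      intro ω hω
      obtain ⟨-, -, -, k1, k2⟩ := hGp ω hω
      rw [Finset.card_product, Nat.cast_mul, sq]
      exact mul_le_mul k1 k2 (by linarith) (Nat.cast_nonneg _)
    rw [Finset.sum_const, nsmul_eq_mul] at this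
    exact this
  have hfin : (G.card : ℝ) * (h / 2) ^ 2 ≤ ((TG B Nr F t1 t2).card : ℝ) :=
    le_trans hsum (Nat.cast_le.mpr hinj)
  rw [← cW]
  exact le_trans (mul_le_mul_of_nonneg_right cG (sq_nonneg _)) hfin

end Pool.Agent.XG
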