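import Pool.Agent.helper13.XG.UPV
import Pool.Agent.helper14.XG.LOW
import Pool.Agent.helper25.XG.BAS
import Pool.Agent.helper25.XG.C6R
import Pool.Agent.helper25.XG.C6S
import Pool.Agent.helper25.XG.C6T
import Pool.Agent.helper25.XG.CPA
import Pool.Agent.helper25.XG.CPB
import Pool.Agent.helper25.XG.NRB
import Pool.Agent.helper25.XG.NW1
import Pool.Agent.helper25.XG.NW3
import Pool.Agent.helper25.XG.UPW
import Pool.Agent.helper29.XG.IN1
import Pool.Agent.helper29.XG.IN3
import Pool.Agent.helper42.XG.C6E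
import Pool.Agent.helper42.XG.C6L
import Pool.Agent.helper42.XG.C6U
import Pool.Agent.helper42.XG.HVA
import Pool.Agent.helper42.XG.NWT
import Pool.Agent.helper42.XG.P4C
import Pool.Agent.helper42.XG.STW
import Pool.Agent.helper56.XG.NW4
import Pool.Agent.helper56.XG.P4A
import Pool.Agent.helper56.XG.TGV
import Pool.Agent.helper62.XG.LMG
import Pool.Agent.helper62.XG.LTP
import Pool.Agent.helper62.XG.STL
import Pool.Agent.helper63.XG.ARG
import Pool.Agent.helper63.XG.SUM
import Pool.Agent.helper67.XG.HVW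
import Pool.Agent.helper71.XG.LMA
import Pool.Agent.helper80.XG.CHO
import Pool.Agent.helper80.XG.INC
import Pool.Agent.helper88.XG.IN2
import Pool.Agent.helper88.XG.STB
import Pool.Agent.helper41.XT.SEL
import Pool.Agent.helper72.XT.MXF
import Pool.Agent.helper72.XT.GAD

/-!
# MP_51d945: assembly of block B: the main lemma LMG
-/

set_option autoImplicit false

namespace Pool.Agent.XG

open Finset SimpleGraph
open Pool.Agent.XT

theorem m_SEL : SEL_stmt := XT.SEL
theorem m_GAD : GAD_stmt := XT.GAD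
theorem m_MXF : MXF_stmt := XT.MXF m_GAD
theorem m_BAS : BAS_stmt := BAS
theorem m_STL : STL_stmt := STL
theorem m_STW : STW_stmt := STW m_STL
theorem m_HVA : HVA_stmt := HVA m_STL m_SEL
theorem m_HVW : HVW_stmt := HVW m_BAS m_HVA
theorem m_NWT : NWT_stmt := NWT m_BAS m_HVW NW1 NW3 NW4 SUM
theorem m_C6E : C6E_stmt := C6E m_BAS C6R
theorem m_C6T : C6T_stmt := C6T m_BAS
theorem m_C6U : C6U_stmt := C6U m_BAS m_STW
theorem m_C6S : C6S_stmt := C6S m_C6U
theorem m_C6L : C6L_stmt := C6L m_NWT m_C6E m_C6T m_C6S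
theorem m_LTP : LTP_stmt := LTP m_BAS m_HVW
theorem m_P4A : P4A_stmt := P4A m_BAS m_C6L
theorem m_P4C : P4C_stmt := P4C m_LTP m_P4A
theorem m_INC : INC_stmt := INC m_BAS IN1 IN2 IN3 m_C6L
theorem m_LOW : LOW_stmt := LOW m_BAS CHO
theorem m_STB : STB_stmt := STB m_BAS m_STW
theorem m_CPA : CPA_stmt := CPA m_STB
theorem m_CPB : CPB_stmt := CPB m_STB
theorem m_UPW : UPW_stmt := UPW m_CPA
theorem m_UPV : UPV_stmt := UPV m_BAS m_CPA m_CPB
theorem m_NRB : NRB_stmt := NRB TGV m_UPV m_MXF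
theorem m_LMA : LMA_stmt := LMA m_P4C m_INC m_LOW ARG
theorem m_LMG : LMG_stmt := LMG m_LMA m_UPW m_NRB ARG

end Pool.Agent.XG
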