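import Pool.Agent.helper14.XG.Defs

/-!
# Project xg (MP_51d945_co): Q1 IS FALSE. Block B: the main lemma for hosts without girth condition

THEOREM. The graph `M` of project xt (483 vertices) has `ex(n, M) ≤ C n^(33/25)` and `ex*(n, M) ≥ c n^(4/3)`, `33/25 < 4/3`.
Part (a) (host `W(q)`, row HOS) is done in project xt. Upper bound: mechanism of helper80 (closure graphs), girth 8 by helper3, general hosts by helper14, checked by helper80.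

BLOCK B (this file): `LMG_stmt` of Defs.lean. `B` = host, degrees `≤ D`; `Nr x y` = the pair is not robust, then `F x y` (`≤ 6000` vertices) meets every gadget between `x` and `y`.
STARS: centre `y` over `x 0, x 1, x 2`, lines `s i` through `x i`, `y`; clean if `x 0, x 1, s 0, s 1 ∉ F (x 2) y`. There are no `6003` disjoint clean stars over `x` (STL).
So pairs with more than `KK` common lines (heavy) are rare (HVW); the other adjacent `Nr`-pairs are light (`Lt`, at most `KK` common lines).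
C6 LEMMA: `nn l y` = number of the `x` on `l` with `(x, y)` light (`y` not on `l`); `∑ nn l y ^ 2 ≤ C n D^3`.
4-paths `a - l - x - m - b` with light halves are typical (`Ty t`) if `b ∉ l`, `a ∉ m`, `nn l b, nn m a ≤ t`, and the `F`-conditions; `PP t a b` = typical 4-paths from `a` to `b`.
Gadget tuples `TG t t'`: all 4-paths with centre `y i` are `Ty t`, all 4-paths with centre `x j` are `Ty t'`.
Lower bound `|TG| ≥ c D^16 / n^2` (INC, CHO, LOW); upper bounds `C t^2 D^4` for given ends and `C t'^2 D^3` for given ends and a given internal vertex (STB, CPA, CPB, UPW, UPV).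

## Rules
File `Pool/Agent/<seat>/XG/XX.lean`:

  import Pool.Agent.helper14.XG.Spec
  set_option autoImplicit false
  namespace Pool.Agent.XG
  open Finset Pool.Agent.XT
  theorem XX (hYY : YY_stmt) ... : XX_stmt := ...
  end Pool.Agent.XG

Hypotheses: only the statements listed under `Uses` in the doc string. Auxiliary lemmas are prefixed `XX_`. No sorry, no double quotes, no native_decide, no convert, no congr!.
All counting statements are proved by giving an injection (or a bound for the fibres) into an explicit product or sigma type; constants are generous.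
-/

set_option autoImplicit false

namespace Pool.Agent.XG

open Finset
open Pool.Agent.XT

/-! ## Definitions -/

/-- The bound for the number of common lines of a light pair (opaque constant: `30000`). -/
def KK : ℕ := 30000

/-- Degrees at most `D`. -/
structure Dg {n : ℕ} (B : FS n) (D : ℕ) : Prop where
  pu : ∀ p, (dP B p).card ≤ D
  lu : ∀ l, (dL B l).card ≤ D

/-- The common lines of two points. -/
def com {n : ℕ} (B : FS n) (x y : Fin n) : Finset (Fin n) :=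
  Finset.univ.filter (fun l => (x, l) ∈ B ∧ (y, l) ∈ B)

/-- Light pairs. -/
def Lt {n : ℕ} (B : FS n) (Nr : Fin n → Fin n → Prop) (x y : Fin n) : Prop :=
  x ≠ y ∧ Nr x y ∧ (com B x y).Nonempty ∧ (com B x y).card ≤ KK

/-- Heavy pairs. -/
def Hv {n : ℕ} (B : FS n) (Nr : Fin n → Fin n → Prop) (x y : Fin n) : Prop :=
  x ≠ y ∧ Nr x y ∧ KK < (com B x y).card

/-- Clean star with centre `y` over `x 0, x 1, x 2` (the index `2` is special). -/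
def Star {n : ℕ} (B : FS n) (Nr : Fin n → Fin n → Prop) (F : Fin n → Fin n → Finset (VV n))
    (x : Fin 3 → Fin n) (y : Fin n) (s : Fin 3 → Fin n) : Prop :=
  (∀ i, x i ≠ y) ∧ Nr (x 2) y ∧ Function.Injective s ∧ (∀ i, (x i, s i) ∈ B ∧ (y, s i) ∈ B) ∧
  ∀ i, i ≠ 2 → Sum.inl (x i) ∉ F (x 2) y ∧ Sum.inr (s i) ∉ F (x 2) y

open Classical in
/-- The points on `l` which form a light pair with `y`; empty if `y` is on `l`. -/
noncomputable def NS {n : ℕ} (B : FS n) (Nr : Fin n → Fin n → Prop) (l y : Fin n) :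
    Finset (Fin n) :=
  Finset.univ.filter (fun x => (y, l) ∉ B ∧ (x, l) ∈ B ∧ Lt B Nr x y)

/-- Their number. -/
noncomputable def nn {n : ℕ} (B : FS n) (Nr : Fin n → Fin n → Prop) (l y : Fin n) : ℕ :=
  (NS B Nr l y).card

/-- The sum of the squares. -/
noncomputable def QQ {n : ℕ} (B : FS n) (Nr : Fin n → Fin n → Prop) : ℕ :=
  ∑ e : Fin n × Fin n, nn B Nr e.1 e.2 ^ 2

/-- Weak pairs `a, b` for the centre `y`: light, no line through `a, b, y`, clean. -/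
def Wk {n : ℕ} (B : FS n) (Nr : Fin n → Fin n → Prop) (F : Fin n → Fin n → Finset (VV n))
    (y a b : Fin n) : Prop :=
  Lt B Nr a b ∧ (∀ m, ¬ ((a, m) ∈ B ∧ (b, m) ∈ B ∧ (y, m) ∈ B)) ∧
  Sum.inl b ∉ F a y ∧ (∀ m ∈ com B b y, Sum.inr m ∉ F a y) ∧
  Sum.inl a ∉ F b y ∧ (∀ m ∈ com B a y, Sum.inr m ∉ F b y)

open Classical in
/-- The number of the pairs in `NS l y` which are not weak. -/
noncomputable def NW {n : ℕ} (B : FS n) (Nr : Fin n → Fin n → Prop)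
    (F : Fin n → Fin n → Finset (VV n)) (l y : Fin n) : ℕ :=
  ((NS B Nr l y ×ˢ NS B Nr l y).filter (fun e => ¬ Wk B Nr F y e.1 e.2)).card

/-- Strong pairs for `(l, y)`: weak, and lines `s` through `a, y`, `m` through `b, y` with `nn s b, nn m a ≤ nn l y`. -/
def Ed {n : ℕ} (B : FS n) (Nr : Fin n → Fin n → Prop) (F : Fin n → Fin n → Finset (VV n))
    (l y a b : Fin n) : Prop :=
  a ∈ NS B Nr l y ∧ b ∈ NS B Nr l y ∧ Wk B Nr F y a b ∧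
  ∃ s m, (a, s) ∈ B ∧ (y, s) ∈ B ∧ (b, s) ∉ B ∧ (b, m) ∈ B ∧ (y, m) ∈ B ∧ (a, m) ∉ B ∧
    nn B Nr s b ≤ nn B Nr l y ∧ nn B Nr m a ≤ nn B Nr l y

open Classical in
/-- The number of strong pairs. -/
noncomputable def ES {n : ℕ} (B : FS n) (Nr : Fin n → Fin n → Prop)
    (F : Fin n → Fin n → Finset (VV n)) (l y : Fin n) : ℕ :=
  (Finset.univ.filter (fun e : Fin n × Fin n => Ed B Nr F l y e.1 e.2)).card

/-- Triples for `(l, y)`: `(a, b)`, `(b, c)` strong, `(a, c)` weak. -/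
def T3 {n : ℕ} (B : FS n) (Nr : Fin n → Fin n → Prop) (F : Fin n → Fin n → Finset (VV n))
    (l y a b c : Fin n) : Prop :=
  Ed B Nr F l y a b ∧ Ed B Nr F l y b c ∧ Wk B Nr F y a c

open Classical in
/-- The number of triples. -/
noncomputable def TS {n : ℕ} (B : FS n) (Nr : Fin n → Fin n → Prop)
    (F : Fin n → Fin n → Finset (VV n)) (l y : Fin n) : ℕ :=
  (Finset.univ.filter (fun e : Fin n × Fin n × Fin n => T3 B Nr F l y e.1 e.2.1 e.2.2)).card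

open Classical in
/-- Triangles: points `p 0, p 1, p 2`, pairwise light, line `e i` through the two points `p j`, `j ≠ i`, but not through `p i`. -/
noncomputable def TR {n : ℕ} (B : FS n) (Nr : Fin n → Fin n → Prop) :
    Finset ((Fin 3 → Fin n) × (Fin 3 → Fin n)) :=
  Finset.univ.filter (fun t => (∀ i j, i ≠ j → (t.1 j, t.2 i) ∈ B ∧ Lt B Nr (t.1 i) (t.1 j)) ∧
    ∀ i, (t.1 i, t.2 i) ∉ B)

open Classical in
/-- Triangles in which `nn (e 0) (p 0)` is the largest of the three numbers. -/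
noncomputable def TRM {n : ℕ} (B : FS n) (Nr : Fin n → Fin n → Prop) :
    Finset ((Fin 3 → Fin n) × (Fin 3 → Fin n)) :=
  (TR B Nr).filter (fun t => ∀ i, nn B Nr (t.2 i) (t.1 i) ≤ nn B Nr (t.2 0) (t.1 0))

/-- Typical 4-paths `a - l - x - m - b`. -/
def Ty {n : ℕ} (B : FS n) (Nr : Fin n → Fin n → Prop) (F : Fin n → Fin n → Finset (VV n))
    (t : ℝ) (a l x m b : Fin n) : Prop :=
  Lt B Nr a x ∧ Lt B Nr x b ∧ (a, l) ∈ B ∧ (x, l) ∈ B ∧ (x, m) ∈ B ∧ (b, m) ∈ B ∧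
  (b, l) ∉ B ∧ (a, m) ∉ B ∧ (nn B Nr l b : ℝ) ≤ t ∧ (nn B Nr m a : ℝ) ≤ t ∧
  Sum.inl b ∉ F a x ∧ Sum.inr m ∉ F a x ∧ Sum.inl a ∉ F b x ∧ Sum.inr l ∉ F b x

open Classical in
/-- The typical 4-paths `(l, x, m)` from `a` to `b`. -/
noncomputable def PP {n : ℕ} (B : FS n) (Nr : Fin n → Fin n → Prop)
    (F : Fin n → Fin n → Finset (VV n)) (t : ℝ) (a b : Fin n) : Finset (Fin n × Fin n × Fin n) :=
  Finset.univ.filter (fun π => Ty B Nr F t a π.1 π.2.1 π.2.2 b)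

/-- Compatible 4-paths `π = (l, x, m)`, `π' = (l', x', m')` from `a` to `b`: the 4-paths `x - l - a - l' - x'` and `x - m - b - m' - x'` are typical. -/
def Cp {n : ℕ} (B : FS n) (Nr : Fin n → Fin n → Prop) (F : Fin n → Fin n → Finset (VV n))
    (t : ℝ) (a b : Fin n) (π π' : Fin n × Fin n × Fin n) : Prop :=
  Ty B Nr F t π.2.1 π.1 a π'.1 π'.2.1 ∧ Ty B Nr F t π.2.1 π.2.2 b π'.2.2 π'.2.1

open Classical in
/-- The number of the incompatible pairs of typical 4-paths with the same ends. -/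
noncomputable def IC {n : ℕ} (B : FS n) (Nr : Fin n → Fin n → Prop)
    (F : Fin n → Fin n → Finset (VV n)) (t t' : ℝ) : ℕ :=
  ∑ e : Fin n × Fin n, ((PP B Nr F t e.1 e.2 ×ˢ PP B Nr F t e.1 e.2).filter
    (fun q => ¬ Cp B Nr F t' e.1 e.2 q.1 q.2)).card

open Classical in
/-- Gadget tuples `(x, y, s)`: the line `s (i, j)` is on `y i` and `x j`, `(i, j) ≠ (2, 2)`; all 4-paths with centre `y i` are `Ty t`, all 4-paths with centre `x j` are `Ty t'`. -/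
noncomputable def TG {n : ℕ} (B : FS n) (Nr : Fin n → Fin n → Prop)
    (F : Fin n → Fin n → Finset (VV n)) (t t' : ℝ) :
    Finset ((Fin 3 → Fin n) × (Fin 3 → Fin n) × (P8 → Fin n)) :=
  Finset.univ.filter (fun q =>
    (∀ p p' : P8, p.1.1 = p'.1.1 → p.1.2 ≠ p'.1.2 →
      Ty B Nr F t (q.1 p.1.2) (q.2.2 p) (q.2.1 p.1.1) (q.2.2 p') (q.1 p'.1.2)) ∧
    (∀ p p' : P8, p.1.2 = p'.1.2 → p.1.1 ≠ p'.1.1 →
      Ty B Nr F t' (q.2.1 p.1.1) (q.2.2 p) (q.1 p.1.2) (q.2.2 p') (q.2.1 p'.1.1)))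

/-! ## Part 1: stars -/

/-- BAS (short). Symmetries and monotonicity. Direct from the definitions (`Sy.sy`, `Sy.fs`). For the last part: `p' = p` is impossible. -/
def BAS_stmt : Prop := ∀ (n : ℕ) (B : FS n) (Nr : Fin n → Fin n → Prop)
  (F : Fin n → Fin n → Finset (VV n)), Sy B Nr F →
  (∀ x y, com B x y = com B y x) ∧ (∀ x y, Lt B Nr x y → Lt B Nr y x) ∧
  (∀ x y, Hv B Nr x y → Hv B Nr y x) ∧ (∀ y a b, Wk B Nr F y a b → Wk B Nr F y b a ∧ a ≠ b) ∧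
  (∀ l y a b, Ed B Nr F l y a b → Ed B Nr F l y b a) ∧
  (∀ t a l x m b, Ty B Nr F t a l x m b → Ty B Nr F t b m x l a ∧ a ≠ b ∧ l ≠ m) ∧
  (∀ t t' a l x m b, t ≤ t' → Ty B Nr F t a l x m b → Ty B Nr F t' a l x m b) ∧
  (∀ x y l, x ≠ y → (x, l) ∈ B → (y, l) ∈ B → Lt B Nr x y ∨ Hv B Nr x y ∨ ¬ Nr x y)

/-- STL (medium). THE STAR LEMMA. PROOF. Suppose `6003 ≤ |Y|`. Take `y3 ∈ Y` and `G = F (x 2) y3`, `|G| ≤ 6000`. Call `y ∈ Y \ {y3}` hit if `inl y ∈ G` or `inr (s y i) ∈ G` for some `i`. Choosing such an element for each hit `y` is injective (the stars are disjoint), so at most `6000` are hit, and there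
are `y1 ≠ y2` in `Y \ {y3}` which are not hit. `u = ![y1, y2, y3]`, `w = x`, `s' p = s (u p.1.1) p.1.2`. `IsG B u w s'`: `u` is injective, `x` is injective, `u i ≠ x j` by `Star`; `s'` is injective: for equal first indices by injectivity of `s y`, for different first indices by disjointness. So `S = inn u w s'` is a gadget set between `x 2 = w 2` and `y3 = u 2`
(`Gad B (x 2) y3 S`), and it is disjoint from `G`: `inl y1, inl y2, inr (s y1 j), inr (s y2 j)` are not hit, `inl (x 0), inl (x 1), inr (s y3 0), inr (s y3 1)` by cleanness. This contradicts `Sy.hit`. -/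
def STL_stmt : Prop := ∀ (n : ℕ) (B : FS n) (Nr : Fin n → Fin n → Prop)
  (F : Fin n → Fin n → Finset (VV n)), Sy B Nr F → ∀ (x : Fin 3 → Fin n) (Y : Finset (Fin n))
  (s : Fin n → Fin 3 → Fin n), Function.Injective x → (∀ y ∈ Y, Star B Nr F x y (s y)) →
  (∀ y ∈ Y, ∀ y' ∈ Y, y ≠ y' → ∀ i j, s y i ≠ s y' j) → Y.card ≤ 6002

/-- STW (medium). WEIGHTED STAR BOUND. Uses STL. PROOF. Let `Y0 ⊆ Y` be a subset of maximal cardinality such that the stars with centres in `Y0` are pairwise disjoint (`s y i ≠ s y' j` for `y ≠ y'` in `Y0`); `|Y0| ≤ 6002` by STL. By maximality every `y ∈ Y \ Y0` has `s y i = s y' j` for some `y' ∈ Y0`, `i`, `j`.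
So `Y` is covered by `Y0` and the sets `Y(l, i) = {y ∈ Y | s y i = l}`, `l ∈ {s y' j | y' ∈ Y0}` (at most `18006` lines), `i < 3`. `∑_{Y0} 1 / N ≤ 6002` because `N ≥ 1`. For `y ∈ Y(l, i)` the hypothesis says `|Y(l, i)| ≤ N y`, so `∑_{y ∈ Y(l, i)} 1 / N y ≤ 1`. Total `6002 + 3 * 18006 = 60020`. -/
def STW_stmt : Prop := ∀ (n : ℕ) (B : FS n) (Nr : Fin n → Fin n → Prop)
  (F : Fin n → Fin n → Finset (VV n)), Sy B Nr F → ∀ (x : Fin 3 → Fin n) (Y : Finset (Fin n))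
  (s : Fin n → Fin 3 → Fin n) (N : Fin n → ℝ), Function.Injective x →
  (∀ y ∈ Y, Star B Nr F x y (s y)) → (∀ y ∈ Y, 1 ≤ N y) →
  (∀ y ∈ Y, ∀ i, ((Y.filter (fun z => s z i = s y i)).card : ℝ) ≤ N y) →
  ∑ y ∈ Y, 1 / N y ≤ 60020

/-- HVA (medium). Uses STL, `XT.SEL_stmt`. PROOF. Suppose that `Y` has at least `6003` elements; take a subset with exactly `6003`. SEL with `ι = Y × Fin 3` (`18009` elements), `V = Fin n`, `W = ∅`, `s = 1`, `N = 24000`, and the families of the singletons `{l}`, `l ∈ com B (x i) y`, `inr l ∉ F (x 2) y`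
(more than `30000 - 6000` elements): lines `s y i` which are pairwise different, `s y i ∈ com B (x i) y`, `inr (s y i) ∉ F (x 2) y`. These are disjoint clean stars: contradiction to STL. -/
def HVA_stmt : Prop := ∀ (n : ℕ) (B : FS n) (Nr : Fin n → Fin n → Prop)
  (F : Fin n → Fin n → Finset (VV n)), Sy B Nr F → ∀ (x : Fin 3 → Fin n) (Y : Finset (Fin n)),
  Function.Injective x → (∀ y ∈ Y, (∀ i, Hv B Nr (x i) y) ∧ Sum.inl (x 0) ∉ F (x 2) y ∧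
    Sum.inl (x 1) ∉ F (x 2) y) → Y.card ≤ 6002

/-- HVW (medium). Few heavy pairs in a set `W` of `w` points. Uses HVA, BAS. PROOF. For `y ∈ W` let `d(y)` be the number of `x ∈ W` with `Hv x y`. Count the pairs (`y`, `x : Fin 3 → W` injective with `Hv (x i) y` for all `i` and `inl (x 0), inl (x 1) ∉ F (x 2) y`): at most `6002 w^3` by HVA; for each `y` at least
`d^3 - 3 d^2 - 2 * 6000 d^2` (subtract the `x` with two equal values, and those with `inl (x 0) ∈ F (x 2) y`: `d` choices for `x 2`, `6000` for `x 0`, `d` for `x 1`). So `∑ (d^3 - 12003 d^2) ≤ 6002 w^3`; as `12003 d^2 ≤ d^3 / 2 + 12003 * 24006^2`, `∑ d^3 ≤ 12004 w^3 + C' w ≤ C w^3`.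
The number of the pairs is `h = ∑ d`, and `h^3 ≤ w^2 ∑ d^3` (power mean, `inner_le_nnorm_mul_nnorm` not needed: `Finset.inner_mul_le_norm_mul_norm` or `inv_pow..`; Mathlib: `inner_le_Lp_mul_Lq`, or `pow_arith_mean_le_arith_mean_pow`). So `h^3 ≤ C w^5`.
Finally: if `w ≥ C / ε^3` then `h^3 ≤ C w^5 ≤ ε^3 w^6`, so `h ≤ ε w^2`; otherwise `h ≤ w^2 ≤ (C / ε^3) w`. -/
def HVW_stmt : Prop := ∀ ε : ℝ, 0 < ε → ∃ C : ℝ, 0 < C ∧ ∀ (n : ℕ) (B : FS n)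
  (Nr : Fin n → Fin n → Prop) (F : Fin n → Fin n → Finset (VV n)), Sy B Nr F →
  ∀ (W : Finset (Fin n)) (H : Finset (Fin n × Fin n)),
  (∀ e ∈ H, e.1 ∈ W ∧ e.2 ∈ W ∧ Hv B Nr e.1 e.2) →
  (H.card : ℝ) ≤ ε * (W.card : ℝ) ^ 2 + C * (W.card : ℝ)

/-! ## Part 2: the C6 lemma -/

/-- NW1 (short-medium). PROOF. Quadruples `(l, y, a, b)`: the flag `(a, l)` (at most `n D`), `b` (at most `500`, `Sy.few`), `y` with `Lt a y`: `y` is on a line through `a` (at most `D^2`). -/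
def NW1_stmt : Prop := ∀ (n D : ℕ) (B : FS n) (Nr : Fin n → Fin n → Prop)
  (F : Fin n → Fin n → Finset (VV n)), Sy B Nr F → Dg B D →
  ∀ Z : Finset (Fin n × Fin n × Fin n × Fin n),
  (∀ z ∈ Z, z.2.2.1 ∈ NS B Nr z.1 z.2.1 ∧ z.2.2.2 ∈ NS B Nr z.1 z.2.1 ∧ z.2.2.1 ≠ z.2.2.2 ∧
    ¬ Nr z.2.2.1 z.2.2.2) → Z.card ≤ 500 * n * D ^ 3

/-- NW3 (short-medium). PROOF. Quadruples `(l, y, a, b)` with `Lt a b` and a line `m` through `a, b, y`: the flag `(a, l)` (`n D`), `b` on `l` (`D`), `m ∈ com a b` (`KK`), `y` on `m` (`D`). -/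
def NW3_stmt : Prop := ∀ (n D : ℕ) (B : FS n) (Nr : Fin n → Fin n → Prop)
  (F : Fin n → Fin n → Finset (VV n)), Sy B Nr F → Dg B D →
  ∀ Z : Finset (Fin n × Fin n × Fin n × Fin n),
  (∀ z ∈ Z, z.2.2.1 ∈ NS B Nr z.1 z.2.1 ∧ z.2.2.2 ∈ NS B Nr z.1 z.2.1 ∧
    Lt B Nr z.2.2.1 z.2.2.2 ∧ ∃ m, (z.2.2.1, m) ∈ B ∧ (z.2.2.2, m) ∈ B ∧ (z.2.1, m) ∈ B) →
  Z.card ≤ KK * n * D ^ 3

/-- NW4 (medium). PROOF. Quadruples `(l, y, a, b)` with `Lt a b`. If `inl b ∈ F a y`: the pair `(a, y)` (`Lt a y`; at most `n D^2`), `b` (`6000`), `l ∈ com a b` (`KK`). If `inr m ∈ F a y` with `m ∈ com b y`: the pair `(a, y)` (`n D^2`), `m` (`6000`), `b` on `m` (`D`), `l ∈ com a b` (`KK`). -/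
def NW4_stmt : Prop := ∀ (n D : ℕ) (B : FS n) (Nr : Fin n → Fin n → Prop)
  (F : Fin n → Fin n → Finset (VV n)), Sy B Nr F → Dg B D → 0 < D →
  ∀ Z : Finset (Fin n × Fin n × Fin n × Fin n),
  (∀ z ∈ Z, z.2.2.1 ∈ NS B Nr z.1 z.2.1 ∧ z.2.2.2 ∈ NS B Nr z.1 z.2.1 ∧
    Lt B Nr z.2.2.1 z.2.2.2 ∧ (Sum.inl z.2.2.2 ∈ F z.2.2.1 z.2.1 ∨
      ∃ m ∈ com B z.2.2.2 z.2.1, Sum.inr m ∈ F z.2.2.1 z.2.1)) →
  Z.card ≤ 12000 * KK * n * D ^ 3

/-- SUM (short). PROOF. Triples `(l, y, x)` with `x ∈ NS l y`: the flag `(x, l)` (at most `n D`), `y` is on a line through `x` (at most `D^2`). -/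
def SUM_stmt : Prop := ∀ (n D : ℕ) (B : FS n) (Nr : Fin n → Fin n → Prop)
  (F : Fin n → Fin n → Finset (VV n)), Sy B Nr F → Dg B D →
  (∑ e : Fin n × Fin n, nn B Nr e.1 e.2) ≤ n * D ^ 3

/-- NWT (short-medium, assembly). Uses BAS, HVW, NW1, NW3, NW4, SUM. PROOF. A pair `(a, b)` in `NS l y` that is not weak: `a = b` (in all `∑ nn ≤ n D^3`, SUM); or `a ≠ b` on `l` and not `Nr` (NW1); or heavy (HVW with `W = NS l y`: at most `ε nn^2 + C nn` for each `(l, y)`); or light with a line through `a, b, y` (NW3); or light and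
`F a y` contains `b` or a line of `com b y` (NW4), or the same with `a`, `b` exchanged (NW4 for the exchanged quadruples, `BAS`). -/
def NWT_stmt : Prop := ∀ ε : ℝ, 0 < ε → ∃ C : ℝ, ∀ (n D : ℕ) (B : FS n)
  (Nr : Fin n → Fin n → Prop) (F : Fin n → Fin n → Finset (VV n)), Sy B Nr F → Dg B D → 0 < D →
  ((∑ e : Fin n × Fin n, NW B Nr F e.1 e.2 : ℕ) : ℝ) ≤ ε * (QQ B Nr : ℝ) + C * n * (D : ℝ) ^ 3

/-- C6R (short-medium). Rotation. PROOF. For `t ∈ TR` choose `i` with the largest `nn (t.2 i) (t.1 i)`; the rotated triangle `(t.1 ∘ (· + i), t.2 ∘ (· + i))` is in `TRM`; for each of the three `i` this map is injective. -/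
def C6R_stmt : Prop := ∀ (n : ℕ) (B : FS n) (Nr : Fin n → Fin n → Prop),
  (TR B Nr).card ≤ 3 * (TRM B Nr).card

/-- C6E (medium). Uses BAS, C6R. PROOF. (1) `QQ ≤ ∑ NW + |TR|`: for `(l, y)` and `(a, b)` in `NS l y` weak choose `s ∈ com a y`, `m ∈ com b y` (light pairs have common lines); `p = ![y, a, b]`, `e = ![l, m, s]` is in `TR`: `y` is not on `l` (definition of `NS`), `a` is not on `m` and `b` not on `s` (no line through `a, b, y`);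
`(l, y, a, b)` can be read off. (2) `|TRM| ≤ KK^2 (∑ ES + ∑ NW)`: for `(p, e) ∈ TRM` let `(l, y, a, b) = (e 0, p 0, p 1, p 2)`; `a, b ∈ NS l y`. It is weak, and then strong with `s = e 2`, `m = e 1`, or it is counted in `NW`. Given `(l, y, a, b)` there are at most `KK` lines `e 1 ∈ com b y` and `KK` lines `e 2 ∈ com a y`. (3) C6R. -/
def C6E_stmt : Prop := ∀ (n : ℕ) (B : FS n) (Nr : Fin n → Fin n → Prop)
  (F : Fin n → Fin n → Finset (VV n)), Sy B Nr F →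
  QQ B Nr ≤ (∑ e : Fin n × Fin n, NW B Nr F e.1 e.2) +
    3 * KK ^ 2 * ((∑ e : Fin n × Fin n, ES B Nr F e.1 e.2) + ∑ e : Fin n × Fin n, NW B Nr F e.1 e.2)

/-- C6T (short-medium). Uses BAS. PROOF. `d(b)` = number of `a` with `Ed l y a b` (all in `NS l y`). `ES^2 = (∑_{b ∈ NS} d(b))^2 ≤ nn ∑ d(b)^2` (Cauchy-Schwarz), and `∑ d(b)^2` is the number of the `(a, b, c)` with `Ed a b`, `Ed b c` (symmetry of `Ed`); those with `(a, c)` not weak are at most `NW * nn`, the others are counted in `TS`. -/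
def C6T_stmt : Prop := ∀ (n : ℕ) (B : FS n) (Nr : Fin n → Fin n → Prop)
  (F : Fin n → Fin n → Finset (VV n)), Sy B Nr F → ∀ l y : Fin n,
  ES B Nr F l y ^ 2 ≤ nn B Nr l y * (TS B Nr F l y + NW B Nr F l y * nn B Nr l y)

open Classical in
/-- C6U (medium). Uses BAS, STW. PROOF. `Y = {y | T3 l y a b c}`, `x = ![a, c, b]` (injective by `Wk`; if `Y` is empty nothing is to be shown). For `y ∈ Y` take `s, m` from `Ed l y a b` (`s ∋ a, y`, `b ∉ s`, `m ∋ b, y`, `a ∉ m`, `nn s b ≤ nn l y`, `nn m a ≤ nn l y`) and `s', m'` from `Ed l y b c` (`m' ∋ c, y`, `b ∉ m'`, `nn m' b ≤ nn l y`). The star: `s y = ![s, m', m]`.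
Different lines: `b ∈ m`, `b ∉ s, m'`; `s = m'` would contain `a, c, y`, but `(a, c)` is weak. Clean: `inl a, inl c, inr s, inr m' ∉ F b y` by the weak pairs `(a, b)`, `(b, c)`. `N y = nn l y ≥ 1`. The hypothesis of STW for `y0 ∈ Y`: `i = 0`, `s0 = s y0 0`: every `y ∈ Y` with `s y 0 = s0` is on `s0`, `(y, b)` is light, `b ∉ s0`, so `y ∈ NS s0 b` and
the number is `≤ nn s0 b ≤ nn l y0`. `i = 1`: the same with `NS (s y0 1) b`. `i = 2`: `NS (s y0 2) a`. -/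
def C6U_stmt : Prop := ∀ (n : ℕ) (B : FS n) (Nr : Fin n → Fin n → Prop)
  (F : Fin n → Fin n → Finset (VV n)), Sy B Nr F → ∀ l a b c : Fin n,
  ∑ y ∈ Finset.univ.filter (fun y => T3 B Nr F l y a b c), 1 / (nn B Nr l y : ℝ) ≤ 60020

/-- C6S (short-medium). Uses C6U. PROOF. `∑_{(l, y)} TS l y / nn l y = ∑_l ∑_{(a, b, c)} ∑_{y : T3 l y a b c} 1 / nn l y`; only triples with `a, b, c` on `l` contribute (at most `D^3` for each `l`), each at most `60020`. -/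
def C6S_stmt : Prop := ∀ (n D : ℕ) (B : FS n) (Nr : Fin n → Fin n → Prop)
  (F : Fin n → Fin n → Finset (VV n)), Sy B Nr F → Dg B D →
  ∑ e : Fin n × Fin n, (TS B Nr F e.1 e.2 : ℝ) / (nn B Nr e.1 e.2 : ℝ) ≤ 60020 * n * (D : ℝ) ^ 3

/-- C6L (medium, assembly). THE C6 LEMMA. Uses NWT, C6E, C6T, C6S. PROOF. `Q = QQ`, `E = ∑ ES`, `W = ∑ NW`, `X = n D^3`. C6T divided by `nn^2` (`ES = 0` if `nn = 0`): `∑ ES^2 / nn^2 ≤ ∑ TS / nn + W ≤ 60020 X + W` (C6S). Cauchy-Schwarz: `E^2 ≤ (∑ ES^2 / nn^2) (∑ nn^2) ≤ (60020 X + W) Q`. C6E: `Q ≤ W + 3 KK^2 (E + W)`.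
NWT with `ε = 1 / (1000 KK^4)`: `W ≤ ε Q + C X`. If `C X ≤ ε Q` then `W ≤ 2 ε Q`, so `E ≥ (Q - 2 ε Q) / (3 KK^2) - 2 ε Q ≥ Q / (4 KK^2)`, so `Q / (16 KK^4) ≤ 60020 X + 2 ε Q` and `Q ≤ 60020 * 32 KK^4 X`. Otherwise `Q ≤ (C / ε) X`. -/
def C6L_stmt : Prop := ∃ C : ℝ, 1 ≤ C ∧ ∀ (n D : ℕ) (B : FS n)
  (Nr : Fin n → Fin n → Prop) (F : Fin n → Fin n → Finset (VV n)), Sy B Nr F → Dg B D → 0 < D →
  (QQ B Nr : ℝ) ≤ C * n * (D : ℝ) ^ 3

/-! ## Part 3: many typical 4-paths -/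

open Classical in
/-- LTP (medium). Many light 2-paths `(x, l, y)`. Uses BAS, HVW. PROOF. `∑_l |dL l|^2 ≥ |B|^2 / n ≥ κ^2 n D^2` counts the triples with `x, y` on `l`. Subtract: `x = y`: `|B| ≤ n D`; `x ≠ y` not `Nr`: `500 |B| ≤ 500 n D` (`Sy.few`); heavy: for each `l` at most `ε D^2 + C D` (HVW with `W = dL l`, `ε = κ^2 / 4`).
So at least `κ^2 n D^2 (1 - 1/4) - (501 + C) n D ≥ κ^2 n D^2 / 2` for large `D`. -/
def LTP_stmt : Prop := ∀ κ : ℝ, 0 < κ → ∃ C : ℝ, ∀ (n D : ℕ) (B : FS n)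
  (Nr : Fin n → Fin n → Prop) (F : Fin n → Fin n → Finset (VV n)), Hst κ D B → Sy B Nr F →
  C ≤ D → κ ^ 2 / 2 * n * (D : ℝ) ^ 2 ≤ ((Finset.univ.filter
    (fun z : Fin n × Fin n × Fin n => (z.1, z.2.1) ∈ B ∧ (z.2.2, z.2.1) ∈ B ∧
      Lt B Nr z.1 z.2.2)).card : ℝ)

/-- P4A (medium). 4-paths with light halves that are not typical. Uses BAS, C6L (`C6` its constant). PROOF. `(a, l, x, m, b)`: `x, a` on `l`, `x, b` on `m`, `(a, x)`, `(x, b)` light. `b` on `l`: the flag `(x, l)` (`n D`), `a`, `b` on `l` (`D^2`), `m ∈ com x b` (`KK`). `b` not on `l`, `nn l b > t`: for each `(l, b)` with `nn > t`: `x ∈ NS l b`, `m ∈ com x b`,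
`a` on `l`: `∑ nn * KK * D ≤ KK D QQ / t ≤ KK C6 n D^4 / t`. `inl b ∈ F a x`: `(a, l, x)` (`n D^2`), `b` (`6000`), `m ∈ com x b` (`KK`). `inr m ∈ F a x`: `(a, l, x)` (`n D^2`), `m` (`6000`), `b` on `m` (`D`). The other conditions by reversing the 4-path. In total at most `2 ((KK + 6000 KK + 6000) n D^3 + KK C6 n D^4 / t)`. -/
def P4A_stmt : Prop := ∃ C : ℝ, 0 < C ∧ ∀ (n D : ℕ) (B : FS n)
  (Nr : Fin n → Fin n → Prop) (F : Fin n → Fin n → Finset (VV n)), Sy B Nr F → Dg B D → 0 < D →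
  ∀ (t : ℝ), 1 ≤ t → ∀ Z : Finset (Fin n × Fin n × Fin n × Fin n × Fin n),
  (∀ z ∈ Z, (z.1, z.2.1) ∈ B ∧ (z.2.2.1, z.2.1) ∈ B ∧ (z.2.2.1, z.2.2.2.1) ∈ B ∧
    (z.2.2.2.2, z.2.2.2.1) ∈ B ∧ Lt B Nr z.1 z.2.2.1 ∧ Lt B Nr z.2.2.1 z.2.2.2.2 ∧
    ¬ Ty B Nr F t z.1 z.2.1 z.2.2.1 z.2.2.2.1 z.2.2.2.2) →
  (Z.card : ℝ) ≤ C * (n * (D : ℝ) ^ 3 + n * (D : ℝ) ^ 4 / t)

/-- P4C (short-medium, assembly). Uses LTP, P4A. PROOF. `L(x)` = number of `(l, a)` with `a, x` on `l`, `(a, x)` light; `∑ L(x) ≥ κ^2 n D^2 / 2`, so there are `∑ L(x)^2 ≥ κ^4 n D^4 / 4` 4-paths with light halves; P4A with `t` large: `C / t ≤ κ^4 / 16`, and `C / D ≤ κ^4 / 16`. -/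
def P4C_stmt : Prop := ∀ κ : ℝ, 0 < κ → ∃ C t : ℝ, 1 ≤ t ∧ ∀ (n D : ℕ) (B : FS n)
  (Nr : Fin n → Fin n → Prop) (F : Fin n → Fin n → Finset (VV n)), Hst κ D B → Sy B Nr F →
  C ≤ D → κ ^ 4 / 8 * n * (D : ℝ) ^ 4 ≤
    ((∑ e : Fin n × Fin n, (PP B Nr F t e.1 e.2).card : ℕ) : ℝ)

/-! ## Part 4: incompatible pairs -/

/-- IN1 (medium). Tuples `(a, b, π, π')`, `π = (l, x, m)`, `π' = (l', x', m')` in `PP t a b`, with `x'` on `l`. PROOF. The 4-path `(a, l, x, m, b)`: at most `n D^4`; `x' ∈ NS l b` (`x'` on `l`, `(x', b)` light, `b` not on `l`): at most `nn l b ≤ t`; `l' ∈ com a x'`, `m' ∈ com x' b`: `KK^2`. -/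
def IN1_stmt : Prop := ∀ (n D : ℕ) (B : FS n) (Nr : Fin n → Fin n → Prop)
  (F : Fin n → Fin n → Finset (VV n)), Sy B Nr F → Dg B D → ∀ t : ℝ, 1 ≤ t →
  ∀ Z : Finset ((Fin n × Fin n) × (Fin n × Fin n × Fin n) × (Fin n × Fin n × Fin n)),
  (∀ z ∈ Z, z.2.1 ∈ PP B Nr F t z.1.1 z.1.2 ∧ z.2.2 ∈ PP B Nr F t z.1.1 z.1.2 ∧
    (z.2.2.2.1, z.2.1.1) ∈ B) → (Z.card : ℝ) ≤ (KK : ℝ) ^ 2 * t * n * (D : ℝ) ^ 4

/-- IN2 (medium). `x'` not on `l` and `nn l x' > t'`. PROOF. `(l, x')` with `nn l x' > t'`; `a ∈ NS l x'` (`a` on `l`, `(a, x')` light): `nn l x'`; `l' ∈ com a x'`: `KK`; `m'` through `x'` and `b` on `m'`: `D^2`; `x ∈ NS l b` (`b` not on `l`, `nn l b ≤ t`, both since `π` is typical): `t`; `m ∈ com x b`: `KK`. Sum: `KK^2 t D^2 ∑_{nn > t'} nn ≤ KK^2 t D^2 QQ / t'`. -/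
def IN2_stmt : Prop := ∀ (n D : ℕ) (B : FS n) (Nr : Fin n → Fin n → Prop)
  (F : Fin n → Fin n → Finset (VV n)), Sy B Nr F → Dg B D → ∀ t t' : ℝ, 1 ≤ t → 1 ≤ t' →
  ∀ Z : Finset ((Fin n × Fin n) × (Fin n × Fin n × Fin n) × (Fin n × Fin n × Fin n)),
  (∀ z ∈ Z, z.2.1 ∈ PP B Nr F t z.1.1 z.1.2 ∧ z.2.2 ∈ PP B Nr F t z.1.1 z.1.2 ∧
    (z.2.2.2.1, z.2.1.1) ∉ B ∧ t' < (nn B Nr z.2.1.1 z.2.2.2.1 : ℝ)) →
  (Z.card : ℝ) ≤ (KK : ℝ) ^ 2 * t * (D : ℝ) ^ 2 * (QQ B Nr : ℝ) / t'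

/-- IN3 (medium). `inl x' ∈ F x a` or `inr l' ∈ F x a`. PROOF. First case: `(a, l, x, m, b)` (`n D^4`), `x'` (`6000`), `l' ∈ com a x'`, `m' ∈ com x' b` (`KK^2`). Second case: `(a, l, x, m, b)` (`n D^4`), `l'` (`6000`), `x' ∈ NS l' b` (`b` not on `l'`, `nn l' b ≤ t` since `π'` is typical): `t`; `m' ∈ com x' b`: `KK`. -/
def IN3_stmt : Prop := ∀ (n D : ℕ) (B : FS n) (Nr : Fin n → Fin n → Prop)
  (F : Fin n → Fin n → Finset (VV n)), Sy B Nr F → Dg B D → ∀ t : ℝ, 1 ≤ t →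
  ∀ Z : Finset ((Fin n × Fin n) × (Fin n × Fin n × Fin n) × (Fin n × Fin n × Fin n)),
  (∀ z ∈ Z, z.2.1 ∈ PP B Nr F t z.1.1 z.1.2 ∧ z.2.2 ∈ PP B Nr F t z.1.1 z.1.2 ∧
    (Sum.inl z.2.2.2.1 ∈ F z.2.1.2.1 z.1.1 ∨ Sum.inr z.2.2.1 ∈ F z.2.1.2.1 z.1.1)) →
  (Z.card : ℝ) ≤ 12000 * (KK : ℝ) ^ 2 * t * n * (D : ℝ) ^ 4

/-- INC (short-medium, assembly). Uses BAS, IN1, IN2, IN3, C6L. PROOF. `IC t t'` counts `(a, b, π, π')` for which `Ty t' x l a l' x'` or `Ty t' x m b m' x'` fails. The first fails iff one of: `x'` on `l` (IN1); `nn l x' > t'` (IN2); `inl x' ∈ F x a` or `inr l' ∈ F x a` (IN3); or one of these after exchanging `π` and `π'`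
(the light pairs and the flags are given). The second: the same for the reversed 4-paths (`(a, b, (l, x, m), (l', x', m')) ↦ (b, a, (m, x, l), (m', x', l'))`, BAS). So `IC ≤ 4 (IN1 + IN2 + IN3)`, `QQ ≤ C6 n D^3`. -/
def INC_stmt : Prop := ∃ C : ℝ, 0 < C ∧ ∀ (n D : ℕ) (B : FS n)
  (Nr : Fin n → Fin n → Prop) (F : Fin n → Fin n → Finset (VV n)), Sy B Nr F → Dg B D → 0 < D →
  ∀ t t' : ℝ, 1 ≤ t → 1 ≤ t' →
  (IC B Nr F t t' : ℝ) ≤ C * (t * n * (D : ℝ) ^ 4 + t * n * (D : ℝ) ^ 5 / t')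

open Classical in
/-- CHO (short-medium). PROOF. `M = |P|`, `i(p)` = number of `q ∈ P` with not `R p q`, `∑ i(p) = I`. The number of `r` is at least `M - i(p) - i(q)`. If it is `< M / 2` then `i(p) > M / 4` or `i(q) > M / 4`. At most `4 I / M` elements `p` have `i(p) > M / 4`, with any `q`: at most `4 I` pairs; the same for `q`. -/
def CHO_stmt : Prop := ∀ (α : Type) (P : Finset α) (R : α → α → Prop),
  (∀ p q, R p q → R q p) →
  ((P ×ˢ P).filter (fun e => 2 * (P.filter (fun r => R e.1 r ∧ R e.2 r)).card < P.card)).card ≤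
    8 * ((P ×ˢ P).filter (fun e => ¬ R e.1 e.2)).card

/-- LOW (medium-long). Many gadget tuples. Uses BAS, CHO. PROOF. An 8-cycle is `ω = (a, b, π, π')`, `π = (l, x, m)`, `π' = (l', x', m')` in `PP t0 a b`, compatible for `t1`; then `ψ = (l, a, l')` and `ψ' = (m, b, m')` are in `PP t1 x x'`. There are `∑ |PP t0|^2 - IC t0 t1` of them. Remove the `ω` for which
(1) less than `|PP t0 a b| / 2` elements `ρ ∈ PP t0 a b` are `t1`-compatible with `π` and `π'`: at most `8 IC t0 t1` (CHO with `P = PP t0 a b`, `R` = `Cp t1`);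
(2) less than `|PP t1 x x'| / 2` elements `φ ∈ PP t1 x x'` are `t2`-compatible (for the ends `x, x'`) with `ψ` and `ψ'`: at most `8 IC t1 t2` (CHO with `P = PP t1 x x'`; `ω ↦ (x, x', ψ, ψ')` is injective);
(3) `|PP t0 a b| < h`: at most `n^2 h^2`; (4) `|PP t1 x x'| < h`: at most `n^2 h^2`. The remaining `ω` have at least `h / 2` elements `ρ = (l'', x'', m'')` and at least `h / 2` elements `φ = (k, z, k')`. The tuple: `x 0 = x`, `x 1 = x'`, `x 2 = x''`, `y 0 = a`, `y 1 = b`, `y 2 = z`, `s (0, j) = l, l', l''`, `s (1, j) = m, m', m''`, `s (2, 0) = k`, `s (2, 1) = k'`.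
It determines `ω, ρ, φ`. It is in `TG t1 t2`: centre `y 0 = a`, `y 1 = b`: `Cp t1` for the pairs of `π, π', ρ`; centre `y 2`: `φ ∈ PP t1 x x'`; centre `x 0`, `x 1`: `(a, b)`: `π, π' ∈ PP t0` and `t0 ≤ t2`; `(a, z)` and `(b, z)`: `Cp t2 x x'` for `ψ, φ` and `ψ', φ`; centre `x 2`: `ρ ∈ PP t0`. (Reversed pairs by BAS.) -/
def LOW_stmt : Prop := ∀ (n : ℕ) (B : FS n) (Nr : Fin n → Fin n → Prop)
  (F : Fin n → Fin n → Finset (VV n)), Sy B Nr F → ∀ t0 t1 t2 h : ℝ, 1 ≤ t0 → t0 ≤ t1 → t1 ≤ t2 →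
  0 ≤ h →
  (((∑ e : Fin n × Fin n, (PP B Nr F t0 e.1 e.2).card ^ 2 : ℕ) : ℝ) - 9 * (IC B Nr F t0 t1 : ℝ) -
    8 * (IC B Nr F t1 t2 : ℝ) - 2 * (n : ℝ) ^ 2 * h ^ 2) * (h / 2) ^ 2 ≤
      ((TG B Nr F t1 t2).card : ℝ)

/-! ## Part 5: upper bounds for gadget tuples -/

/-- TGV (medium). A tuple with `x 2 ≠ y 2` is a gadget. PROOF. `x j ≠ x j'`: centre `y 0`: `x j'` is not on `s (0, j)`. `y i ≠ y i'`: centre `x 0`. `y i ≠ x j` for `(i, j) ≠ (2, 2)`: light pairs. `s` injective: `s (i, j) = s (i', j')`. `i = i'`, `j ≠ j'`: `x j'` is not on `s (i, j)` (centre `y i`). `j = j'`, `i ≠ i'`: `y i'` is not on `s (i, j)` (centre `x j`).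
`i ≠ i'`, `j ≠ j'`: if `i ≠ 2` then `x j'` is not on `s (i, j)` (centre `y i`, `(i, j') ≠ (2, 2)`), but it is on `s (i', j')`; if `i = 2` then `i' ≠ 2` and `x j` is not on `s (i', j')` (centre `y i'`). -/
def TGV_stmt : Prop := ∀ (n : ℕ) (B : FS n) (Nr : Fin n → Fin n → Prop)
  (F : Fin n → Fin n → Finset (VV n)) (t t' : ℝ) (x y : Fin 3 → Fin n) (s : P8 → Fin n),
  (x, y, s) ∈ TG B Nr F t t' → x 2 ≠ y 2 → IsG B y x s

open Classical in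
/-- STB (medium). THE STAR BOUND. Uses BAS, STW. PROOF. Let `Y` be the set of the centres; choose one star `s y` for each `y ∈ Y`. `x` is injective (`x j` is not on `s i`; if `Y` is empty nothing is to be shown), `Star B Nr F x y (s y)`: different lines, `F`-conditions from the 4-paths `x 2 - y - x i`. STW with `N = t`: for a line `l = s y i` and `j ≠ i`: all `z ∈ Y` with
`s z i = l` are on `l`, `(z, x j)` is light, `x j` is not on `l`: `z ∈ NS l (x j)`, `nn l (x j) ≤ t`. So `|Y| ≤ 60020 t`. For each `y` there are at most `KK^3` choices of the lines. -/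
def STB_stmt : Prop := ∀ (n : ℕ) (B : FS n) (Nr : Fin n → Fin n → Prop)
  (F : Fin n → Fin n → Finset (VV n)), Sy B Nr F → ∀ t : ℝ, 1 ≤ t → ∀ x : Fin 3 → Fin n,
  ((Finset.univ.filter (fun q : Fin n × (Fin 3 → Fin n) => ∀ i j, i ≠ j →
    Ty B Nr F t (x i) (q.2 i) q.1 (q.2 j) (x j))).card : ℝ) ≤ 60020 * (KK : ℝ) ^ 3 * t

/-- CPA (short-medium). Uses STB. PROOF. `x = (x0, x1, a)`, `y 2 = b`, `s (2, 0)`, `s (2, 1)` are given. The rest of the tuple is `(y 0, s (0, ·))` and `(y 1, s (1, ·))`, two stars over `x` all whose 4-paths are `Ty t`. -/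
def CPA_stmt : Prop := ∀ (n : ℕ) (B : FS n) (Nr : Fin n → Fin n → Prop)
  (F : Fin n → Fin n → Finset (VV n)), Sy B Nr F → ∀ t t' : ℝ, 1 ≤ t →
  ∀ (a b x0 x1 l0 l1 : Fin n) (Z : Finset ((Fin 3 → Fin n) × (Fin 3 → Fin n) × (P8 → Fin n))),
  (∀ q ∈ Z, q ∈ TG B Nr F t t' ∧ q.1 2 = a ∧ q.2.1 2 = b ∧ q.1 0 = x0 ∧ q.1 1 = x1 ∧
    q.2.2 ⟨(2, 0), by decide⟩ = l0 ∧ q.2.2 ⟨(2, 1), by decide⟩ = l1) →
  (Z.card : ℝ) ≤ (60020 * (KK : ℝ) ^ 3 * t) ^ 2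

/-- CPB (short-medium). Uses STB. PROOF. `y = (y0, y1, b)`, `x 2 = a`, `s (0, 2)`, `s (1, 2)` are given. The rest of the tuple is `(x 0, s (·, 0))` and `(x 1, s (·, 1))`, two stars over `y` all whose 4-paths are `Ty t'`. -/
def CPB_stmt : Prop := ∀ (n : ℕ) (B : FS n) (Nr : Fin n → Fin n → Prop)
  (F : Fin n → Fin n → Finset (VV n)), Sy B Nr F → ∀ t t' : ℝ, 1 ≤ t' →
  ∀ (a b y0 y1 l0 l1 : Fin n) (Z : Finset ((Fin 3 → Fin n) × (Fin 3 → Fin n) × (P8 → Fin n))),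
  (∀ q ∈ Z, q ∈ TG B Nr F t t' ∧ q.1 2 = a ∧ q.2.1 2 = b ∧ q.2.1 0 = y0 ∧ q.2.1 1 = y1 ∧
    q.2.2 ⟨(0, 2), by decide⟩ = l0 ∧ q.2.2 ⟨(1, 2), by decide⟩ = l1) →
  (Z.card : ℝ) ≤ (60020 * (KK : ℝ) ^ 3 * t') ^ 2

/-- UPW (short-medium). Uses CPA. PROOF. First part: given `b`, the flags `s (2, 0) ∋ b, x 0` and `s (2, 1) ∋ b, x 1`: `D^4` choices, then CPA. Second part (`x 2 = y 2 = b`): the same with the sum over `b`: `n D^4`. -/
def UPW_stmt : Prop := ∀ (n D : ℕ) (B : FS n) (Nr : Fin n → Fin n → Prop)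
  (F : Fin n → Fin n → Finset (VV n)), Sy B Nr F → Dg B D → ∀ t t' : ℝ, 1 ≤ t →
  (∀ a b : Fin n, (((TG B Nr F t t').filter (fun q => q.1 2 = a ∧ q.2.1 2 = b)).card : ℝ) ≤
    (D : ℝ) ^ 4 * (60020 * (KK : ℝ) ^ 3 * t) ^ 2) ∧
  (((TG B Nr F t t').filter (fun q => q.1 2 = q.2.1 2)).card : ℝ) ≤
    n * (D : ℝ) ^ 4 * (60020 * (KK : ℝ) ^ 3 * t) ^ 2

open Classical in
/-- UPV (medium-long). Uses BAS, CPA, CPB. PROOF. `T = (60020 KK^3 t')^2`. Each of the `12` positions of `v` in `inn y x s` is possible for at most `KK D^3 T` tuples (`D ≥ 1`). Data for CPA: `(x 0, s (2, 0))`, `(x 1, s (2, 1))`, each with `s (2, j) ∈ com (x j) b`, at most `D^2` choices each. `v = inl (x 0)`: `s (2, 0) ∈ com v b`, at most `KK` (light), and `D^2` for the other. `v = inl (x 1)`: the same.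
`v = inr (s (2, 0))`: `x 0` on `v`: `D`, times `D^2`; `s (2, 1)` the same. `v = inr (s (i, 0))`, `i < 2`: `x 0` on `v`: `D`, `s (2, 0) ∈ com (x 0) b`: `KK`, times `D^2`; `s (i, 1)` the same. Data for CPB: `(y 0, s (0, 2))`, `(y 1, s (1, 2))`: `v = inl (y 0)`: `s (0, 2) ∈ com v a`: `KK`, times `D^2`; `v = inr (s (0, 2))`: `y 0` on `v`: `D`, times `D^2`; the same for `y 1`, `s (1, 2)`. -/
def UPV_stmt : Prop := ∀ (n D : ℕ) (B : FS n) (Nr : Fin n → Fin n → Prop)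
  (F : Fin n → Fin n → Finset (VV n)), Sy B Nr F → Dg B D → 0 < D → ∀ t t' : ℝ, 1 ≤ t → t ≤ t' →
  ∀ (a b : Fin n) (v : VV n),
  (((TG B Nr F t t').filter (fun q => q.1 2 = a ∧ q.2.1 2 = b ∧
    v ∈ inn q.2.1 q.1 q.2.2)).card : ℝ) ≤ 12 * (KK : ℝ) * (D : ℝ) ^ 3 * (60020 * (KK : ℝ) ^ 3 * t') ^ 2

open Classical in
/-- NRB (short-medium). Pairs which are not robust. Uses TGV, UPV, `XT.MXF_stmt`. PROOF. `a ≠ b`, not `Rob B a b`: let `G` be as in MXF (`≤ 6000` vertices, meets every gadget set between `a` and `b`). Each tuple of the set is a gadget (TGV): `IsG B y x s`, so `Gad B a b (inn y x s)` and `inn y x s` meets `G`. So the set is covered by `6000` sets as in UPV. -/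
def NRB_stmt : Prop := ∀ (n D : ℕ) (B : FS n) (Nr : Fin n → Fin n → Prop)
  (F : Fin n → Fin n → Finset (VV n)), Sy B Nr F → Dg B D → 0 < D → ∀ t t' : ℝ, 1 ≤ t → t ≤ t' →
  ∀ a b : Fin n, a ≠ b → ¬ Rob B a b →
  (((TG B Nr F t t').filter (fun q => q.1 2 = a ∧ q.2.1 2 = b)).card : ℝ) ≤
    6000 * (12 * (KK : ℝ) * (D : ℝ) ^ 3 * (60020 * (KK : ℝ) ^ 3 * t') ^ 2)

/-! ## Part 6: assembly -/

/-- ARG (short). PROOF. `C = K^25` (`K ≥ 1`). `D^25 ≥ C n^8 ≥ K^25`, so `K ≤ D`. `(K n)^8 ≤ C n^8 ≤ D^25 ≤ D^32`; `(K n^2)^4 = K^4 n^8 ≤ D^25 ≤ D^28`; `(K n^5)^8 = K^8 (n^8)^5`, `C^5 (n^8)^5 ≤ D^125 ≤ D^144`; `(K n^6)^4 = K^4 (n^8)^3`, `C^3 (n^8)^3 ≤ D^75 ≤ D^76`. (`pow_le_pow_left₀`, `le_of_pow_le_pow_left`.) -/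
def ARG_stmt : Prop := ∀ K : ℝ, 1 ≤ K → ∃ C : ℝ, 1 ≤ C ∧ ∀ n D : ℕ, 0 < n →
  C * (n : ℝ) ^ 8 ≤ (D : ℝ) ^ 25 →
  K ≤ D ∧ K * n ≤ (D : ℝ) ^ 4 ∧ K * (n : ℝ) ^ 2 ≤ (D : ℝ) ^ 7 ∧ K * (n : ℝ) ^ 5 ≤ (D : ℝ) ^ 18 ∧
  K * (n : ℝ) ^ 6 ≤ (D : ℝ) ^ 19 ∧ K * (n : ℝ) ^ 8 ≤ (D : ℝ) ^ 25

/-- LMA (medium). Lower bound for the tuples. Uses P4C, INC, LOW, ARG. PROOF. `t0` from P4C, `c1 = κ^8 / 64`: `∑ |PP t0|^2 ≥ (κ^4 n D^4 / 8)^2 / n^2 = c1 D^8`. `ρ = n / D^3 ≥ 1`, `t1 = C1 ρ`, `t2 = C2 ρ^2`, `t0 ≤ C1 ≤ C2`. INC (constant `C`): `IC t0 t1 ≤ C t0 n D^4 + (C t0 / C1) D^8` (`n D^5 / ρ = D^8`), `IC t1 t2 ≤ C C1 n^2 D + (C C1 / C2) D^8`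
(`t1 n D^4 = C1 n^2 D`). Choose `C1`, then `C2`, then `K` in ARG (`K n ≤ D^4`, `K n^2 ≤ D^7`) such that both are `≤ c1 D^8 / 100`. `h = (√c1 / 8) D^4 / n`: `n^2 h^2 = c1 D^8 / 64`. LOW: `|TG| ≥ c1 D^8 (1 - 17/100 - 1/32) h^2 / 4 ≥ (c1 D^8 / 2) (c1 D^8 / (256 n^2))`. -/
def LMA_stmt : Prop := ∀ κ : ℝ, 0 < κ → ∃ C C1 C2 c : ℝ, 1 ≤ C1 ∧ C1 ≤ C2 ∧ 0 < c ∧
  ∀ (n D : ℕ) (B : FS n) (Nr : Fin n → Fin n → Prop) (F : Fin n → Fin n → Finset (VV n)),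
  Hst κ D B → Sy B Nr F → C * (n : ℝ) ^ 8 ≤ (D : ℝ) ^ 25 → D ^ 3 ≤ n →
  c * (D : ℝ) ^ 16 / (n : ℝ) ^ 2 ≤
    ((TG B Nr F (C1 * n / (D : ℝ) ^ 3) (C2 * (n : ℝ) ^ 2 / (D : ℝ) ^ 6)).card : ℝ)

/-- LMG (medium, assembly; the statement is `LMG_stmt` in Defs.lean). Uses LMA, UPW, NRB, ARG. PROOF. `T = |TG t1 t2| ≥ c D^16 / n^2`, `1 ≤ t1 = C1 n / D^3 ≤ t2 = C2 n^2 / D^6` (as `D^3 ≤ n`, `C1 ≤ C2`). Tuples with `x 2 = y 2`: at most `n D^4 (60020 KK^3 t1)^2 = C' n^3 / D^2 ≤ T / 4` if `K n^5 ≤ D^18`. Tuples over pairs `a ≠ b` which are not robust: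
`n^2 * 6000 * 12 KK D^3 (60020 KK^3 t2)^2 = C'' n^6 / D^9 ≤ T / 4` if `K n^8 ≤ D^25`. The others, at least `T / 2`, are over robust pairs (`RobS B`), at most `D^4 (60020 KK^3 t1)^2 = C' n^2 / D^2` each: `|RobS B| ≥ c D^18 / (2 C' n^4)`, so `D |RobS B| ≥ c D^19 / (2 C' n^4) ≥ A n^2` if `K n^6 ≤ D^19`. -/
def LMGx_stmt : Prop := LMG_stmt

end Pool.Agent.XG
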