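import Pool.Agent.helper14.XG.Spec

/-!
# Project xg (MP_51d945_co), block A: from the main lemma LMG to the negation of Q1

Adaptation of parts A, C, E of project xt (helper3) to hosts without girth condition. Rules as in `Spec.lean` of this directory; import `Pool.Agent.helper14.XG.SpecA`.
Most rows are copies of finished rows of xt: DNG of DNS (helper68), SYX of MXF (helper72), PRG of PRT (helper83), ADG of ADM (helper72), BLG of BLK (helper40), STG of STP (helper27), HVG of HVY (helper27), UPG of UPF (helper83), CUG of CUG (helper56).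
-/

set_option autoImplicit false

namespace Pool.Agent.XG

open Finset SimpleGraph
open Pool.Agent.XT

/-- Admissible sets: no ordered copy of `M` in both orientations. No girth condition. -/
def AdmG {n : ℕ} (B : FS n) : Prop := ¬ HasM B ∧ ¬ HasM (sw B)

/-- SWH (short). Uses DUA. PROOF. `dP (sw B) = dL B`, `dL (sw B) = dP B`, `|sw B| = |B|`. -/
def SWH_stmt : Prop := ∀ (κ : ℝ) (n D : ℕ) (B : FS n), Hst κ D B → Hst κ D (sw B)

/-- CLH (short). Uses CLN. PROOF. CLN with `δ = κ D`: `|B'| ≥ 4 κ n D - 2 n κ D ≥ κ n D`; `B' ⊆ B`, so the degrees are at most `D`. -/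
def CLH_stmt : Prop := ∀ (κ : ℝ) (n D : ℕ) (B : FS n), 0 < κ → 0 < n → 0 < D →
  (∀ p, (dP B p).card ≤ D) → (∀ l, (dL B l).card ≤ D) → 4 * κ * n * D ≤ (B.card : ℝ) →
  ∃ B' : FS n, B' ⊆ B ∧ Hst κ D B'

/-- SPR (medium). Smaller degrees. PROOF. Let `B' ⊆ B` be of maximal size among the subsets with all degrees at most `D'` (the empty set is one). If `(p, l) ∈ B`, `(p, l) ∉ B'` then `|dP B' p| = D'` or `|dL B' l| = D'` (otherwise add the flag). At most `|B'| / D'` points and at most `|B'| / D'` lines have degree `D'` in `B'`, each is in at most `D` flags of `B`. So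
`|B| ≤ |B'| + 2 D |B'| / D'`, so `D' |B| ≤ (D' + 2 D) |B'| ≤ 3 D |B'|`. -/
def SPR_stmt : Prop := ∀ (n D D' : ℕ) (B : FS n), 0 < D' → D' ≤ D → (∀ p, (dP B p).card ≤ D) →
  (∀ l, (dL B l).card ≤ D) →
  ∃ B' : FS n, B' ⊆ B ∧ (∀ p, (dP B' p).card ≤ D') ∧ (∀ l, (dL B' l).card ≤ D') ∧
    D' * B.card ≤ 3 * D * B'.card

/-- DNG (medium). LEMMA 1 (compare XT.DNS of helper68). Uses PCK, FNM, GAD.
PROOF. `∑_{c, x} |Tset B c x| = ∑_{(x, y) robust} |dP B y| ≥ κ D |RobS B|` (`y` is on a line by GAD; `Rob` has a gadget). Let `T = {(c, x) | TT B c x}`. As `|Tset B c x| ≤ |dL B c| ≤ D`: `D |T| + 500 n^2 ≥ κ D |RobS B| ≥ κ A n^2`. So `|T| ≥ (κ A - 500) n^2 / D` and, as `D^2 ≤ D^3 ≤ n`,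
`|T|^2 ≥ (κ A - 500)^2 n^3 > 135 n^3` for `κ A ≥ 512`. Apply PCK and FNM. -/
def DNG_stmt : Prop := ∀ κ : ℝ, 0 < κ → ∃ A : ℝ, 0 < A ∧ ∀ (n D : ℕ) (B : FS n), Hst κ D B →
  D ^ 3 ≤ n → A * (n : ℝ) ^ 2 ≤ (D : ℝ) * ((RobS B).card : ℝ) → HasM B

/-- SYX (medium, compare XT.MXF of helper72). The system of a host without good flags. Uses GAD. PROOF. If `¬ Rb B x y` take a family `W` of pairwise disjoint gadget sets between `x` and `y` of maximal size; it has at most `500` members; `F0 x y` = its union (at most `500 * 12` vertices). A gadget set disjoint from `F0 x y` could be added (gadget sets are not empty).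
`F0 x y = ∅` if `Rb B x y`. `F x y = F0 x y` if `x ≤ y`, `F x y = F0 y x` otherwise (symmetric; `Gad` and `Rb` are symmetric by GAD). `hit`: `Gad B' x y S` implies `Gad B x y S` (GAD). `few`: let `(x, l) ∈ B'`. If `(y, l) ∈ B'`, `y ≠ x`, `Rb B x y` then `Good B x l y`: at most one of the `501` disjoint gadget sets contains `inr l`, remove it.
As `(x, l) ∉ GF B` there are less than `500` such `y`. -/
def SYX_stmt : Prop := ∀ (n : ℕ) (B B' : FS n), B' ⊆ B → (∀ e ∈ B', e ∉ GF B) →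
  ∃ F : Fin n → Fin n → Finset (VV n), Sy B' (fun x y => ¬ Rb B x y) F

/-- ONE (short-medium, assembly). Uses LMG, DNG, SYX, CLH, MMO. PROOF. `A` from DNG for `κ / 8`, `C` from LMG for `κ / 8` and `A`. Let `|GF B| < κ / 4 n D` and `B1 = B \ GF B`, `|B1| ≥ (3/4) κ n D ≥ 4 (κ / 8) n D`. CLH: `B' ⊆ B1` with `Hst (κ / 8) D B'`. SYX and LMG: `A n^2 ≤ D |RobS B'|`. DNG: `HasM B'`, so `HasM B` (MMO with the identities). -/
def ONE_stmt : Prop := ∀ κ : ℝ, 0 < κ → ∃ C : ℝ, ∀ (n D : ℕ) (B : FS n), Hst κ D B →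
  C * (n : ℝ) ^ 8 ≤ (D : ℝ) ^ 25 → D ^ 3 ≤ n → HasM B ∨ κ / 4 * n * D ≤ ((GF B).card : ℝ)

/-- PRG (medium, compare XT.PRT of helper83). Uses ONE, CLH, SWH, DGX, GFT, FNM, DUA, MMO. PROOF. `C` = the maximum of the constants of ONE for `κ` and for `κ / 16`. Suppose that `B`, `sw B` do not have `M`. ONE: `|GF B| ≥ κ / 4 n D`. CLH: `B' ⊆ GF B` with `Hst (κ / 16) D B'`. `Hst (κ / 16) D (sw B')` (SWH), and `sw B' ⊆ sw B` does not have `M` (DUA, MMO; `GF B ⊆ B` by GFT).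
ONE for `sw B'`: `GF (sw B')` is not empty, so there is a good `2`-path `(l, x, l')` in `sw B'` (a flag of `GF` has at least `500` of them). DGX for `B'` gives `a, b, X` with `(X (i, j), a i), (X (i, j), b j) ∈ B' ⊆ GF B`; by GFT `TT B (a i) (X (i, j))`, `TT B (b j) (X (i, j))`; FNM: `HasM B`, contradiction. -/
def PRG_stmt : Prop := ∀ κ : ℝ, 0 < κ → ∃ C : ℝ, ∀ (n D : ℕ) (B : FS n), Hst κ D B →
  C * (n : ℝ) ^ 8 ≤ (D : ℝ) ^ 25 → D ^ 3 ≤ n → HasM B ∨ HasM (sw B)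

/-- PRH (medium). Without the condition `D^3 ≤ n`. Uses PRG, SPR, CLH, DUA, MMO. PROOF. Let `C0` be the constant of PRG for `κ / 12` and `C = max C0 1`, `N ≥ 2^75 C^3 + 1`. Let `D'` be the least natural number with `C n^8 ≤ D'^25` (`Nat.find`); `D' ≤ D`, `D' ≥ 2` (`C n^8 > 1`) and `(D' - 1)^25 < C n^8`, `D' ≤ 2 (D' - 1)`: `D'^25 < 2^25 C n^8`, so
`(D'^3)^25 < 2^75 C^3 n^24 ≤ n^25`, `D'^3 ≤ n`. SPR: `B1 ⊆ B` with degrees at most `D'` and `|B1| ≥ D' |B| / (3 D) ≥ κ n D' / 3 = 4 (κ / 12) n D'`. CLH: `B2 ⊆ B1` with `Hst (κ / 12) D' B2`. PRG: `HasM B2` or `HasM (sw B2)`; `B2 ⊆ B` (MMO, DUA). -/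
def PRH_stmt : Prop := ∀ κ : ℝ, 0 < κ → ∃ (C : ℝ) (N : ℕ), ∀ (n D : ℕ) (B : FS n), N ≤ n → Hst κ D B →
  C * (n : ℝ) ^ 8 ≤ (D : ℝ) ^ 25 → HasM B ∨ HasM (sw B)

/-- ADG (short, compare XT.ADM of helper72). Uses MMO, DUA. -/
def ADG_stmt : Prop := ∀ (m n : ℕ) (α β : Fin m ↪ Fin n) (B : FS n), AdmG B →
  (∀ B' : FS n, B' ⊆ B → AdmG B') ∧ AdmG (sw B) ∧
  AdmG (Finset.univ.filter (fun e : Fin m × Fin m => (α e.1, β e.2) ∈ B))

/-- BLG (medium, copy of XT.BLK of helper40). Blocks. Uses ADG. PROOF. Let `H' ⊇ H` with `|H'| = m` and `α : Fin m ↪ Fin n` with image `H'`. For each block `{l | l.val / m = k}` (`k ≤ n / m`; at most `m` elements) let `β : Fin m ↪ Fin n` have an image containing the block. By ADG the flags `(p, l)` with `p ∈ H`, `l` in the block are at most `f`. There are at most `n / m + 1` blocks. -/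
def BLG_stmt : Prop := ∀ (n m : ℕ) (B : FS n) (H : Finset (Fin n)) (f : ℝ), 0 < m → m ≤ n → H.card ≤ m →
  AdmG B → (∀ B' : FS m, AdmG B' → (B'.card : ℝ) ≤ f) →
  ((B.filter (fun e => e.1 ∈ H)).card : ℝ) ≤ ((n : ℝ) / m + 1) * f

/-- STG (short, copy of XT.STP of helper27). PROOF. `m ≤ n / 2^13`, `n / m + 1 ≤ 2 n / m`, `m^(33/25) / m = m^(8/25) ≤ n^(8/25) * 2^(-104/25) ≤ n^(8/25) * 2^(-4)`. -/
def STG_stmt : Prop := ∀ (n m : ℕ), 0 < m → (m : ℝ) ≤ n / 2 ^ 13 →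
  ((n : ℝ) / m + 1) * (m : ℝ) ^ (33 / 25 : ℝ) ≤ (n : ℝ) ^ (33 / 25 : ℝ) / 8

/-- HVG (medium, copy of XT.HVY of helper27). Heavy points carry few flags. Uses BLG, STG. PROOF. `H = {p | |dP B p| > 2^14 C n^(8/25)}`; `|H| * 2^14 C n^(8/25) ≤ |B| ≤ 2 C n^(33/25)`, so `|H| ≤ n / 2^13`. If `H` is empty we are done; otherwise `m = |H| ≥ 1`, `m < n`, BLG with `f = C m^(33/25)`, STG. -/
def HVG_stmt : Prop := ∀ (n : ℕ) (C : ℝ) (B : FS n), 0 < n → 1 ≤ C → AdmG B →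
  (∀ m < n, ∀ B' : FS m, AdmG B' → (B'.card : ℝ) ≤ C * (m : ℝ) ^ (33 / 25 : ℝ)) →
  (B.card : ℝ) ≤ 2 * C * (n : ℝ) ^ (33 / 25 : ℝ) →
  ((B.filter (fun e => 2 ^ 14 * C * (n : ℝ) ^ (8 / 25 : ℝ) < ((dP B e.1).card : ℝ))).card : ℝ) ≤
    C * (n : ℝ) ^ (33 / 25 : ℝ) / 8

/-- UPG (medium, compare XT.UPF of helper83). THE UPPER BOUND for sets of flags. Uses PRH, HVG, CLN, ADG, DUA. PROOF. `a = 33/25`, `C0`, `N` from PRH for `κ = 2^(-17)`; choose `C ≥ max 1 N^2` with `2^(13 * 25) C^25 ≥ C0`. Strong induction on `n` (`n = 0`: `B = ∅`; `n < N`: `|B| ≤ n^2 ≤ C ≤ C n^a`). Suppose `|B| > C n^a`.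
Replace `B` by a subset with `⌈C n^a⌉ ≤ 2 C n^a` elements. Remove the flags at points of degree `> Δ = 2^14 C n^(8/25)` and at lines of degree `> Δ` (HVG for `B` and for `sw B`): at least `C n^a (1 - 1/8 - 1/8)` flags are left, `B1`. CLN with `δ = C n^(8/25) / 8 = 2^(-17) Δ`: `B2 ⊆ B1` with at least `(3/4) C n^a - C n^a / 4 = C n^a / 2` flags and
degrees `≥ δ`, `≤ D = ⌊Δ⌋`: `Hst (2^(-17)) D B2` (`C n^a / 2 ≥ 2^(-17) n Δ ≥ 2^(-17) n D`, `δ ≥ 2^(-17) D`), and `D ≥ Δ - 1 ≥ Δ / 2`, so `D^25 ≥ 2^(13 * 25) C^25 n^8 ≥ C0 n^8`. PRH contradicts `AdmG B2`. -/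
def UPG_stmt : Prop := ∃ C : ℝ, 0 < C ∧ ∀ (n : ℕ) (B : FS n), AdmG B →
  (B.card : ℝ) ≤ C * (n : ℝ) ^ (33 / 25 : ℝ)

/-- CUG (medium, copy of XT.CUG of helper56, without the part on cycles). The bipartite half of a graph. PROOF. For `S : Finset (Fin n)` let `B_S = {(u, v) | u ∈ S, v ∉ S, G.Adj u v}`; the sum of `|B_S|` over the `2^n` sets is `2 e(G) 2^(n-2)` for `n ≥ 2`. Properties: a pair `(u, v) ∈ B_S` is an edge with `u ∈ S`, `v ∉ S`.
`HasM B_S` and `HasM (sw B_S)` give a copy of `Gr RM` (`Sum.elim f g`; every vertex of `M` has a neighbour, so the images of points and lines are on different sides). -/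
def CUG_stmt : Prop := ∀ (n : ℕ) (G : SimpleGraph (Fin n)), (GL.Gr RM).Free G →
  ∃ B : FS n, AdmG B ∧ G.edgeSet.ncard ≤ 2 * B.card

/-- FIN (short-medium). THE THEOREM: `Q1` is false. Uses HOS, UPG, CUG. PROOF. `ex(n, Gr RM) ≤ 2 C n^(33/25)` by CUG, UPG (take an extremal graph; `extremalNumber_le_iff` or the supremum). Let `Q1` hold; for `R = RM` (`XM`, `YM` are finite) it gives `C'`, `N`. The hosts of HOS: `n^(4/3) / 16 ≤ C' 2 C n^(33/25)` for all large `n`, but `4/3 > 33/25`. -/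
def FIN_stmt : Prop := ¬ GL.Q1

end Pool.Agent.XG
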